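import Mathlib

set_option autoImplicit false

open Set Topology Cardinal

namespace Pool.Agent.Lib.MP_a57f84_gt

/-- Small subsets of the index set `Set ℝ`: those of size at most continuum. -/
abbrev Sm : Type := {S : Set (Set ℝ) // #S ≤ continuum}

open Classical in
/-- The isolated point attached to an index. -/
noncomputable def ee (p : Set ℝ) : Sm → Bool := fun S => decide (p ∈ S.1)

/-- The point at infinity. -/
def oo : Sm → Bool := fun _ => false

def YS : Set ((Sm → Bool) × ℝ) :=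
  {y | (y.1 = oo ∧ ¬Irrational y.2) ∨ ((∃ p, y.1 = ee p) ∧ Irrational y.2)}

abbrev YY : Type := YS

abbrev PP : Type := {r : ℝ // Irrational r}

def sing (p : Set ℝ) : Sm := ⟨{p}, by simp [one_le_aleph0.trans aleph0_le_continuum]⟩

theorem ee_sing {p q : Set ℝ} : ee q (sing p) = true ↔ q = p := by
  simp [ee, sing]

noncomputable def jj (p : Set ℝ) (r : PP) : YY := ⟨(ee p, r.1), Or.inr ⟨⟨p, rfl⟩, r.2⟩⟩

def ii (q : ℚ) : YY := ⟨(oo, q), Or.inl ⟨rfl, Rat.not_irrational q⟩⟩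

theorem continuous_jj (p : Set ℝ) : Continuous (jj p) := by
  refine Continuous.subtype_mk ?_ _
  fun_prop

theorem cases_YY (y : YY) : (∃ q, y = ii q) ∨ ∃ p r, y = jj p r := by
  obtain ⟨⟨x, r⟩, h | h⟩ := y
  · left
    obtain ⟨h1, h2⟩ := h
    simp only [Irrational, not_not] at h2
    obtain ⟨q, hq⟩ := h2
    refine ⟨q, Subtype.ext (Prod.ext h1 hq.symm)⟩
  · right
    obtain ⟨⟨p, h1⟩, h2⟩ := h
    exact ⟨p, ⟨r, h2⟩, Subtype.ext (Prod.ext h1 rfl)⟩

theorem mem_range_jj {p : Set ℝ} {y : YY} : y ∈ range (jj p) ↔ y.1.1 (sing p) = true := by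
  constructor
  · rintro ⟨r, rfl⟩
    exact ee_sing.2 rfl
  · intro h
    rcases cases_YY y with ⟨q, rfl⟩ | ⟨p', r, rfl⟩
    · simp [ii, oo] at h
    · have : p' = p := ee_sing.1 h
      exact ⟨r, by rw [this]⟩

theorem continuous_coord (S : Sm) : Continuous (fun y : YY => y.1.1 S) := by fun_prop

theorem isClopen_range_jj (p : Set ℝ) : IsClopen (range (jj p)) := by
  have : range (jj p) = (fun y : YY => y.1.1 (sing p)) ⁻¹' {true} := by
    ext y; exact mem_range_jj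
  rw [this]
  exact (isClopen_discrete _).preimage (continuous_coord _)

theorem isOpen_image_jj (p : Set ℝ) {T : Set PP} (hT : IsOpen T) : IsOpen (jj p '' T) := by
  obtain ⟨T', hT', rfl⟩ := isOpen_induced_iff.1 hT
  have : jj p '' (Subtype.val ⁻¹' T') = range (jj p) ∩ (fun y : YY => y.1.2) ⁻¹' T' := by
    ext y
    constructor
    · rintro ⟨r, hr, rfl⟩
      exact ⟨⟨r, rfl⟩, hr⟩
    · rintro ⟨⟨r, rfl⟩, hr⟩
      exact ⟨r, hr, rfl⟩
  rw [this]
  exact (isClopen_range_jj p).isOpen.inter (hT'.preimage (by fun_prop))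

/-- Neighbourhoods of the points at infinity contain boxes. -/
theorem exists_box {U : Set YY} (hU : IsOpen U) {q : ℚ} (hq : ii q ∈ U) :
    ∃ (S : Sm) (B : Set ℝ), IsOpen B ∧ (q : ℝ) ∈ B ∧
      ∀ y : YY, y.1.1 S = false → y.1.2 ∈ B → y ∈ U := by
  obtain ⟨U', hU', rfl⟩ := isOpen_induced_iff.1 hU
  obtain ⟨u, v, hu, hv, h1, h2, h3⟩ := isOpen_prod_iff.1 hU' oo q hq
  obtain ⟨I, w, hw, hIw⟩ := isOpen_pi_iff.1 hu oo h1
  have hsm : #(⋃ S : I, (S.1.1 : Set (Set ℝ))) ≤ continuum := by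
    refine (mk_iUnion_le_sum_mk).trans ?_
    refine (sum_le_sum _ (fun _ => continuum) (fun S => S.1.2)).trans ?_
    rw [sum_const']
    have : #I ≤ continuum := (lt_aleph0_of_finite _).le.trans aleph0_le_continuum
    exact (mul_le_mul_left this _).trans (by simp)
  refine ⟨⟨_, hsm⟩, v, hv, h2, fun y hy hyv => h3 ⟨hIw ?_, hyv⟩⟩
  intro S hS
  have : y.1.1 S = oo S := by
    rcases cases_YY y with ⟨q, rfl⟩ | ⟨p, r, rfl⟩
    · rfl
    · simp only [jj, ee, oo, decide_eq_false_iff_not, mem_iUnion, not_exists] at hy ⊢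
      exact hy ⟨S, hS⟩
  rw [this]
  exact (hw S hS).2

/-- An open set containing all points at infinity contains a co-small set times a dense open set. -/
theorem exists_bigbox {U : ℚ → Set YY} (hU : ∀ q, IsOpen (U q)) (hq : ∀ q, ii q ∈ U q) :
    ∃ (S : Sm) (B : ℚ → Set ℝ), (∀ q, IsOpen (B q)) ∧ (∀ q : ℚ, (q : ℝ) ∈ B q) ∧
      ∀ q, ∀ y : YY, y.1.1 S = false → y.1.2 ∈ B q → y ∈ U q := by
  choose S B h1 h2 h3 using fun q => exists_box (hU q) (hq q)
  have hsm : #(⋃ q, ((S q).1 : Set (Set ℝ))) ≤ continuum := by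
    refine (mk_iUnion_le_sum_mk).trans ?_
    refine (sum_le_sum _ (fun _ => continuum) (fun q => (S q).2)).trans ?_
    rw [sum_const']
    simp
  refine ⟨⟨_, hsm⟩, B, h1, h2, fun q y hy hyB => h3 q y ?_ hyB⟩
  rcases cases_YY y with ⟨q, rfl⟩ | ⟨p, r, rfl⟩
  · rfl
  · simp only [jj, ee, decide_eq_false_iff_not, mem_iUnion, not_exists] at hy ⊢
    exact hy q

theorem pointFinite_refinement {Z ι : Type} [MetricSpace Z] (s : ι → Set Z)
    (hs : ∀ i, IsOpen (s i)) : ∃ t : ι → Set Z, (∀ i, IsOpen (t i)) ∧ (∀ i, t i ⊆ s i) ∧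
      (∀ z ∈ ⋃ i, s i, ∃ i, z ∈ t i) ∧ ∀ z, {i | z ∈ t i}.Finite := by
  have hW : IsOpen (⋃ i, s i) := isOpen_iUnion hs
  obtain ⟨v, h1, h2, h3, h4⟩ := precise_refinement (X := (⋃ i, s i : Set Z))
    (fun i => Subtype.val ⁻¹' s i) (fun i => (hs i).preimage continuous_subtype_val) (by
      rw [← preimage_iUnion]; exact eq_univ_of_forall fun z => z.2)
  refine ⟨fun i => Subtype.val '' v i, fun i => hW.isOpenMap_subtype_val _ (h1 i), ?_, ?_, ?_⟩
  · rintro i _ ⟨z, hz, rfl⟩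
    exact h4 i hz
  · intro z hz
    have : (⟨z, hz⟩ : (⋃ i, s i : Set Z)) ∈ ⋃ i, v i := by rw [h2]; trivial
    obtain ⟨i, hi⟩ := mem_iUnion.1 this
    exact ⟨i, _, hi, rfl⟩
  · intro z
    by_cases hz : z ∈ ⋃ i, s i
    · refine (h3.point_finite ⟨z, hz⟩).subset ?_
      rintro i ⟨w, hw, rfl⟩
      exact hw
    · convert finite_empty
      ext i
      simp only [mem_ofPred_eq, mem_empty_iff_false, iff_false]
      rintro ⟨w, -, rfl⟩
      exact hz w.2

theorem pointFinite_YY (𝒰 : Set (Set YY)) (ho : ∀ U ∈ 𝒰, IsOpen U) (hc : ⋃₀ 𝒰 = Set.univ) :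
    ∃ 𝒱 : Set (Set YY), (∀ V ∈ 𝒱, IsOpen V) ∧ ⋃₀ 𝒱 = Set.univ ∧ (∀ V ∈ 𝒱, ∃ U ∈ 𝒰, V ⊆ U) ∧
      ∀ y, {V ∈ 𝒱 | y ∈ V}.Finite := by
  have hcov : ∀ y : YY, ∃ U ∈ 𝒰, y ∈ U := fun y => by
    have : y ∈ ⋃₀ 𝒰 := by rw [hc]; trivial
    exact this
  choose U hU hU' using fun q => hcov (ii q)
  obtain ⟨S, B, hB1, hB2, hB3⟩ := exists_bigbox (fun q => ho _ (hU q)) hU'
  obtain ⟨t, ht1, ht2, ht3, ht4⟩ := pointFinite_refinement B hB1
  choose s hs1 hs2 hs3 hs4 using fun p : Set ℝ =>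
    pointFinite_refinement (fun U : 𝒰 => jj p ⁻¹' U.1)
      (fun U => (ho _ U.2).preimage (continuous_jj p))
  let V1 : ℚ → Set YY := fun q => {y | y.1.1 S = false ∧ y.1.2 ∈ t q}
  let V2 : Set ℝ × 𝒰 → Set YY := fun z => jj z.1 '' s z.1 z.2
  refine ⟨range V1 ∪ range V2, ?_, ?_, ?_, ?_⟩
  · rintro _ (⟨q, rfl⟩ | ⟨z, rfl⟩)
    · exact ((isOpen_discrete {false}).preimage (continuous_coord S)).inter
        ((ht1 q).preimage (by fun_prop : Continuous fun y : YY => y.1.2))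
    · exact isOpen_image_jj _ (hs1 _ _)
  · rw [eq_univ_iff_forall]
    intro y
    rcases cases_YY y with ⟨q, rfl⟩ | ⟨p, r, rfl⟩
    · obtain ⟨q', hq'⟩ := ht3 q (mem_iUnion.2 ⟨q, hB2 q⟩)
      exact ⟨V1 q', Or.inl ⟨q', rfl⟩, rfl, hq'⟩
    · obtain ⟨W, hW, hW'⟩ := hcov (jj p r)
      obtain ⟨W', h⟩ := hs3 p r (mem_iUnion.2 ⟨⟨W, hW⟩, hW'⟩)
      exact ⟨V2 (p, W'), Or.inr ⟨_, rfl⟩, r, h, rfl⟩
  · rintro _ (⟨q, rfl⟩ | ⟨z, rfl⟩)
    · exact ⟨U q, hU q, fun y hy => hB3 q y hy.1 (ht2 q hy.2)⟩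
    · refine ⟨z.2.1, z.2.2, ?_⟩
      rintro _ ⟨r, hr, rfl⟩
      exact hs2 _ _ hr
  · intro y
    have f1 : (V1 '' {q | y.1.2 ∈ t q}).Finite := (ht4 _).image _
    have f2 : (V2 '' {z | y ∈ V2 z}).Finite := by
      refine Finite.image _ ?_
      rcases cases_YY y with ⟨q, rfl⟩ | ⟨p, r, rfl⟩
      · convert finite_empty
        ext z
        simp only [mem_ofPred_eq, mem_empty_iff_false, iff_false]
        rintro ⟨r, -, hr⟩
        have := mem_range_jj.1 ⟨r, hr⟩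
        simp [ii, oo] at this
      · refine ((hs4 p r).image (fun W => (p, W))).subset ?_
        rintro ⟨p', W⟩ ⟨r', hr', e⟩
        have h1 : p = p' := ee_sing.1 (mem_range_jj.1 ⟨r', e⟩)
        subst h1
        have h2 : r' = r := Subtype.ext (congrArg (fun y : YY => y.1.2) e)
        subst h2
        exact ⟨W, hr', rfl⟩
    refine (f1.union f2).subset ?_
    rintro _ ⟨⟨q, rfl⟩ | ⟨z, rfl⟩, hy⟩
    · exact Or.inl ⟨q, hy.2, rfl⟩
    · exact Or.inr ⟨z, hy, rfl⟩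

theorem exists_index (S : Finset PP → Sm) : ∃ p, ∀ F, p ∉ (S F).1 := by
  by_contra hc
  push Not at hc
  have h1 : (Set.univ : Set (Set ℝ)) = ⋃ F, (S F).1 := by
    symm; rw [eq_univ_iff_forall]; intro p; exact mem_iUnion.2 (hc p)
  have h2 : #(Finset PP) ≤ continuum := by
    have : #PP ≤ continuum := (mk_subtype_le _).trans mk_real.le
    rcases finite_or_infinite PP with h | h
    · exact (lt_aleph0_of_finite _).le.trans aleph0_le_continuum
    · rwa [mk_finset_of_infinite]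
  have h3 : #(⋃ F, ((S F).1 : Set (Set ℝ))) ≤ continuum := by
    refine (mk_iUnion_le_sum_mk).trans ?_
    refine (sum_le_sum _ (fun _ => continuum) (fun q => (S q).2)).trans ?_
    rw [sum_const']
    exact (mul_le_mul_left h2 _).trans (by simp)
  rw [← h1, mk_univ, mk_set, mk_real] at h3
  exact absurd h3 (not_le.2 (cantor _))

theorem not_image {X : Type*} [TopologicalSpace X] [T2Space X] [ParacompactSpace X]
    (f : X → YY) (hf : Continuous f) (ho : IsOpenMap f) (hs : Function.Surjective f)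
    (hk : ∀ y, IsCompact (f ⁻¹' {y})) : False := by
  classical
  -- the closed set at infinity and the horizontal closed sets
  have hY0 : IsClosed (range ii) := by
    have : range ii = ⋂ p, (range (jj p))ᶜ := by
      ext y
      simp only [mem_iInter, mem_compl_iff]
      constructor
      · rintro ⟨q, rfl⟩ p h
        have := mem_range_jj.1 h
        simp [ii, oo] at this
      · intro h
        rcases cases_YY y with ⟨q, rfl⟩ | ⟨p, r, rfl⟩
        · exact ⟨q, rfl⟩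
        · exact absurd ⟨r, rfl⟩ (h p)
    rw [this]
    exact isClosed_iInter fun p => (isClopen_range_jj p).isOpen.isClosed_compl
  have hG : ∀ t : PP, ∃ G : Set X, IsOpen G ∧ f ⁻¹' {y | y.1.2 = t.1} ⊆ G ∧
      closure G ⊆ (f ⁻¹' range ii)ᶜ := by
    intro t
    refine normal_exists_closure_subset ?_ (hY0.preimage hf).isOpen_compl ?_
    · exact (isClosed_eq (by fun_prop) continuous_const).preimage hf
    · rintro x hx ⟨q, hq⟩
      have h1 : (f x).1.2 = t.1 := hx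
      rw [← hq] at h1
      exact t.2 ⟨q, h1⟩
  choose G hG1 hG2 hG3 using hG
  have hO : ∀ F : Finset PP, ∃ (S : Sm) (D : Set ℝ), D ∈ residual ℝ ∧
      ∀ y : YY, y.1.1 S = false → y.1.2 ∈ D → ∃ x, f x = y ∧ ∀ t ∈ F, x ∉ G t := by
    intro F
    have h1 : IsOpen (f '' ⋂ t ∈ F, (closure (G t))ᶜ) :=
      ho _ (isOpen_biInter_finset fun t _ => isClosed_closure.isOpen_compl)
    obtain ⟨S, B, hB1, hB2, hB3⟩ := exists_bigbox (U := fun _ => f '' ⋂ t ∈ F, (closure (G t))ᶜ)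
      (fun _ => h1) (fun q => by
        obtain ⟨x, hx⟩ := hs (ii q)
        exact ⟨x, mem_iInter₂.2 fun t _ h => hG3 t h ⟨q, hx.symm⟩, hx⟩)
    refine ⟨S, ⋃ q, B q, residual_of_dense_open (isOpen_iUnion hB1) ?_, ?_⟩
    · refine Rat.denseRange_cast.mono ?_
      rintro _ ⟨q, rfl⟩
      exact mem_iUnion.2 ⟨q, hB2 q⟩
    · intro y hy hyB
      obtain ⟨q, hq⟩ := mem_iUnion.1 hyB
      obtain ⟨x, hx, e⟩ := hB3 q y hy hq
      exact ⟨x, e, fun t ht h => mem_iInter₂.1 hx t ht (subset_closure h)⟩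
  choose S D hD hSD using hO
  obtain ⟨p, hp⟩ := exists_index S
  have hXp : IsClopen (f ⁻¹' range (jj p)) := (isClopen_range_jj p).preimage hf
  obtain ⟨v, hv1, hv2, hv3, hv4⟩ := precise_refinement_set hXp.isClosed G hG1 (by
    rintro x ⟨r, hr⟩
    exact mem_iUnion.2 ⟨r, hG2 r (by change (f x).1.2 = r.1; rw [← hr]; rfl)⟩)
  have hfin : ∀ y, {t | (v t ∩ f ⁻¹' {y}).Nonempty}.Finite :=
    fun y => hv3.finite_nonempty_inter_compact (hk y)
  obtain ⟨E, hE1, hE2⟩ := TopologicalSpace.exists_countable_dense PP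
  set T : Set PP := ⋃ d ∈ E, {t | (v t ∩ f ⁻¹' {jj p d}).Nonempty} with hT
  have hTc : T.Countable := hE1.biUnion fun d _ => (hfin _).countable
  have hmemT : ∀ t r, (v t ∩ f ⁻¹' {jj p r}).Nonempty → t ∈ T := by
    rintro t r ⟨x, hx1, hx2⟩
    have h1 : IsOpen (jj p ⁻¹' (f '' v t)) := (ho _ (hv1 t)).preimage (continuous_jj p)
    obtain ⟨d, hd, x', hx', e⟩ := hE2.exists_mem_open h1 ⟨r, x, hx1, hx2⟩
    exact mem_biUnion hd ⟨x', hx', e⟩
  have hcount : {F : Finset PP | (F : Set PP) ⊆ T}.Countable := by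
    have := countable_ofPred_finite_subset hTc
    refine (this.preimage_of_injOn (f := fun F : Finset PP => (F : Set PP))
      (Finset.coe_injective.injOn)).mono ?_
    intro F hF
    exact ⟨F.finite_toSet, hF⟩
  have hres : (⋂ F ∈ {F : Finset PP | (F : Set PP) ⊆ T}, D F) ∩ {x | Irrational x} ∈ residual ℝ :=
    Filter.inter_mem ((countable_bInter_mem hcount).2 fun F _ => hD F)
      eventually_residual_irrational
  obtain ⟨r, hr1, hr2⟩ := (dense_of_mem_residual hres).nonempty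
  set F : Finset PP := (hfin (jj p ⟨r, hr2⟩)).toFinset with hF
  have hFT : (F : Set PP) ⊆ T := by
    intro t ht
    simp only [hF, Finite.coe_toFinset] at ht
    exact hmemT t _ ht
  obtain ⟨x, hx1, hx2⟩ := hSD F (jj p ⟨r, hr2⟩) (by simp [jj, ee, hp F])
    (mem_iInter₂.1 hr1 F hFT)
  obtain ⟨t, ht⟩ := mem_iUnion.1 (hv2 (show x ∈ f ⁻¹' range (jj p) from ⟨_, hx1.symm⟩))
  refine hx2 t ?_ (hv4 t ht)
  simp only [hF, Finite.mem_toFinset]
  exact ⟨x, ht, hx1⟩

end Pool.Agent.Lib.MP_a57f84_gt
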