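import Pool.Agent.Lib.MP_a57f84_gt.Main

/-! A metacompact Tychonoff space that is not an open compact image of a paracompact space. -/

namespace Pool.Agent.Lib.MP_a57f84_gt.OldQ1

universe u

/-- Every open cover has a point-finite open refinement. -/
def Metacompact (Y : Type) [TopologicalSpace Y] : Prop :=
  ∀ 𝒰 : Set (Set Y), (∀ U ∈ 𝒰, IsOpen U) → ⋃₀ 𝒰 = Set.univ →
    ∃ 𝒱 : Set (Set Y), (∀ V ∈ 𝒱, IsOpen V) ∧ ⋃₀ 𝒱 = Set.univ ∧ (∀ V ∈ 𝒱, ∃ U ∈ 𝒰, V ⊆ U) ∧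
      ∀ y : Y, {V ∈ 𝒱 | y ∈ V}.Finite

theorem result : ∃ (Y : Type) (_ : TopologicalSpace Y), T2Space Y ∧ T35Space Y ∧ Metacompact Y ∧
    ∀ (X : Type u) [TopologicalSpace X] [T2Space X] [ParacompactSpace X] (f : X → Y),
      ¬(Continuous f ∧ Function.Surjective f ∧ IsOpenMap f ∧ ∀ y, IsCompact (f ⁻¹' {y})) :=
  ⟨Pool.Agent.Lib.MP_a57f84_gt.YY, inferInstance, inferInstance, inferInstance,
    Pool.Agent.Lib.MP_a57f84_gt.pointFinite_YY,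
    fun _ _ _ _ f h => Pool.Agent.Lib.MP_a57f84_gt.not_image f h.1 h.2.2.1 h.2.1 h.2.2.2⟩

end Pool.Agent.Lib.MP_a57f84_gt.OldQ1
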