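import Pool.Agent.Lib.MP_a57f84_gt.Q2Space

/-! The tree space has point-finite open refinements. -/

set_option autoImplicit false

open Set Topology

namespace Pool.Agent.Lib.MP_a57f84_gt.Q2

open Classical in
/-- The level of the root of the region containing the node of `c` at level `n`. -/
noncomputable def rt (σ : Y → Y → Finset I) (c : ℕ → I) : ℕ → ℕ
  | 0 => 0
  | n + 1 => if c n ∈ σ (node c (rt σ c n)) (node c n) then n + 1 else rt σ c n

variable (σ : Y → Y → Finset I)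

theorem rt_le (c : ℕ → I) : ∀ n, rt σ c n ≤ n
  | 0 => le_rfl
  | n + 1 => by
    have := rt_le c n
    rw [rt]
    split_ifs <;> omega

theorem rt_congr {c c' : ℕ → I} : ∀ {n : ℕ}, (∀ k < n, c k = c' k) → rt σ c n = rt σ c' n
  | 0, _ => rfl
  | n + 1, h => by
    have h1 : rt σ c n = rt σ c' n := rt_congr fun k hk => h k (by omega)
    have h2 : node c n = node c' n := node_congr fun k hk => h k (by omega)
    have h3 : node c (rt σ c' n) = node c' (rt σ c' n) :=
      node_congr fun k hk => h k (by have := rt_le σ c' n; omega)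
    rw [rt, rt, h1, h2, h3, h n (by omega)]

theorem rt_obey (c : ℕ → I) : ∀ n, ∀ k, rt σ c n ≤ k → k < n →
    c k ∉ σ (node c (rt σ c n)) (node c k)
  | 0, k, _, hk => by omega
  | n + 1, k, h1, h2 => by
    by_cases h : c n ∈ σ (node c (rt σ c n)) (node c n)
    · rw [rt, if_pos h] at h1
      omega
    · rw [rt, if_neg h] at h1 ⊢
      by_cases hk : k = n
      · rw [hk]; exact h
      · exact rt_obey c n k h1 (by omega)

theorem rt_stable (c : ℕ → I) (a : ℕ) : ∀ n, a ≤ n →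
    (∀ k, a ≤ k → k < n → c k ∉ σ (node c (rt σ c a)) (node c k)) → rt σ c n = rt σ c a := by
  intro n hn
  induction n, hn using Nat.le_induction with
  | base => intro _; rfl
  | succ n hn ih =>
    intro h
    have h1 := ih fun k hk hk' => h k hk (by omega)
    rw [rt, h1, if_neg (h n hn (by omega))]

theorem rt_rt (c : ℕ → I) : ∀ n, rt σ c (rt σ c n) = rt σ c n
  | 0 => rfl
  | n + 1 => by
    by_cases h : c n ∈ σ (node c (rt σ c n)) (node c n)
    · have : rt σ c (n + 1) = n + 1 := by rw [rt, if_pos h]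
      rw [this, this]
    · have : rt σ c (n + 1) = rt σ c n := by rw [rt, if_neg h]
      rw [this, rt_rt c n]

open Classical in
/-- The members of the refinement. -/
def VV (Z : Y → Finset ℕ) (c : ℕ → I) (a : ℕ) : Set Y :=
  Bs c a (fun y => σ (node c a) y ∪ σ (node c (rt σ c a)) y) (Z (node c a))

def Cond (Z : Y → Finset ℕ) (c : ℕ → I) (a : ℕ) : Prop :=
  rt σ c a = a ∨ a ∈ Z (node c (rt σ c a))

theorem VV_congr (Z : Y → Finset ℕ) {c c' : ℕ → I} {a : ℕ} (h : ∀ k < a, c k = c' k) :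
    VV σ Z c a = VV σ Z c' a ∧ (Cond σ Z c a ↔ Cond σ Z c' a) := by
  have h1 : rt σ c a = rt σ c' a := rt_congr σ h
  have h2 : node c a = node c' a := node_congr h
  have h3 : node c (rt σ c' a) = node c' (rt σ c' a) :=
    node_congr fun k hk => h k (by have := rt_le σ c' a; omega)
  constructor
  · rw [VV, VV, h1, h2, h3, Bs_congr h]
  · rw [Cond, Cond, h1, h3]

theorem finite_levels (Z : Y → Finset ℕ) (y : Y) :
    {a | Cond σ Z y.c a ∧ y ∈ VV σ Z y.c a}.Finite := by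
  classical
  by_cases hy : y.len = ⊤
  · have key : ∀ a, y ∈ VV σ Z y.c a → ∀ n, a ≤ n → rt σ y.c n = rt σ y.c a := by
      intro a ha n hn
      refine rt_stable σ y.c a n hn fun k hk _ hm => ?_
      exact ha.2.2.1 k hk (by simp [hy]) (Finset.mem_union_right _ hm)
    rcases Set.eq_empty_or_nonempty {a | Cond σ Z y.c a ∧ y ∈ VV σ Z y.c a} with h | ⟨a0, h0⟩
    · rw [h]; exact finite_empty
    · refine ((Z (node y.c (rt σ y.c a0))).finite_toSet.insert (rt σ y.c a0)).subset ?_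
      rintro a ⟨hc, ha⟩
      have e : rt σ y.c a = rt σ y.c a0 := by
        rw [← key a ha (max a a0) (le_max_left _ _), key a0 h0.2 (max a a0) (le_max_right _ _)]
      rcases hc with hc | hc
      · left; rw [← e, hc]
      · right; rw [← e]; exact hc
  · obtain ⟨n, hn⟩ := ENat.ne_top_iff_exists.1 hy
    refine (finite_Iic n).subset ?_
    rintro a ⟨-, ha⟩
    have := ha.1
    rw [← hn] at this
    exact_mod_cast this

theorem pointFinite_Y (𝒰 : Set (Set Y)) (hU : ∀ U ∈ 𝒰, IsOpen U) (hc : ⋃₀ 𝒰 = univ) :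
    ∃ 𝒱 : Set (Set Y), (∀ V ∈ 𝒱, IsOpen V) ∧ ⋃₀ 𝒱 = univ ∧ (∀ V ∈ 𝒱, ∃ U ∈ 𝒰, V ⊆ U) ∧
      ∀ y : Y, {V ∈ 𝒱 | y ∈ V}.Finite := by
  classical
  have hmem : ∀ t : Y, ∃ U ∈ 𝒰, t ∈ U := fun t => by
    have : t ∈ ⋃₀ 𝒰 := hc ▸ mem_univ t
    exact this
  have h0 : ∀ t : Y, ∃ (σ : Y → Finset I) (Z : Finset ℕ), ∀ a : ℕ, t.len = a →
      ∃ U ∈ 𝒰, Bs t.c a σ Z ⊆ U := by
    intro t
    obtain ⟨U, hU', ht⟩ := hmem t
    by_cases h : t.len = ⊤
    · exact ⟨fun _ => ∅, ∅, fun a ha => absurd (h ▸ ha) (by simp)⟩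
    · obtain ⟨n, hn⟩ := ENat.ne_top_iff_exists.1 h
      obtain ⟨σ, Z, hs⟩ := isOpen_iff.1 (hU U hU') t ht n hn.symm
      refine ⟨σ, Z, fun a ha => ⟨U, hU', ?_⟩⟩
      have : n = a := by rw [← hn] at ha; exact_mod_cast ha
      exact this ▸ hs
  choose σ Z hσ using h0
  refine ⟨{V | ∃ c a, Cond σ Z c a ∧ V = VV σ Z c a} ∪ {V | ∃ u : Y, u.len = ⊤ ∧ V = {u}},
    ?_, ?_, ?_, ?_⟩
  · rintro V (⟨c, a, -, rfl⟩ | ⟨u, hu, rfl⟩)
    · exact isOpen_Bs _ _ _ _
    · exact isOpen_of_top fun v hv => by rw [hv, hu]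
  · rw [eq_univ_iff_forall]
    intro u
    by_cases h : u.len = ⊤
    · exact ⟨{u}, Or.inr ⟨u, h, rfl⟩, rfl⟩
    · obtain ⟨n, hn⟩ := ENat.ne_top_iff_exists.1 h
      by_cases hcond : Cond σ Z u.c n
      · exact ⟨_, Or.inl ⟨u.c, n, hcond, rfl⟩, mem_Bs_self hn.symm _ _⟩
      · refine ⟨_, Or.inl ⟨u.c, rt σ u.c n, Or.inl (rt_rt σ _ n), rfl⟩, ?_, fun _ _ => rfl,
          fun k hk hk' => ?_, fun z hz _ hh => hcond (Or.inr ?_)⟩
        · rw [← hn]; exact_mod_cast rt_le σ u.c n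
        · have hkn : k < n := by rw [← hn] at hk'; exact_mod_cast hk'
          rw [rt_rt]
          simp only [Finset.union_self]
          exact rt_obey σ u.c n k hk hkn
        · have : n = z := by rw [← hn] at hh; exact_mod_cast hh
          subst this
          exact hz
  · rintro V (⟨c, a, -, rfl⟩ | ⟨u, hu, rfl⟩)
    · obtain ⟨U, hU', hs⟩ := hσ (node c a) a rfl
      refine ⟨U, hU', subset_trans ?_ hs⟩
      rw [Bs_congr (c := (node c a).c) (c' := c) fun k hk => node_c hk]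
      exact Bs_mono (fun _ => Finset.subset_union_left) subset_rfl
    · obtain ⟨U, hU', ht⟩ := hmem u
      exact ⟨U, hU', singleton_subset_iff.2 ht⟩
  · intro y
    refine (((finite_levels σ Z y).image (VV σ Z y.c)).insert {y}).subset ?_
    rintro V ⟨⟨c, a, hcond, rfl⟩ | ⟨u, hu, rfl⟩, hy⟩
    · right
      have h := VV_congr σ Z (c := y.c) (c' := c) (a := a) hy.2.1
      exact ⟨a, ⟨h.2.2 hcond, h.1 ▸ hy⟩, h.1⟩
    · left
      rw [mem_singleton_iff.1 hy]

end Pool.Agent.Lib.MP_a57f84_gt.Q2
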