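import Pool.Agent.Lib.MP_a57f84_gt.Q2Cover

/-! The tree space is not a pseudo-open compact image of a paracompact Hausdorff space. -/

set_option autoImplicit false

open Set Topology Cardinal Filter

namespace Pool.Agent.Lib.MP_a57f84_gt.Q2

abbrev J : Type := ℕ × (ℕ → ℕ) × ℕ

theorem card_index : #(ℕ × Finset J) ≤ continuum := by
  have h1 : #J = continuum := by
    simp [J]
  have h2 : #(Finset J) = continuum := by
    rw [mk_finset_of_infinite, h1]
  rw [mk_prod, h2]
  simp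

theorem exists_next (S : ℕ × Finset J → Finset I) : ∃ i : I, ∀ p, i ∉ S p := by
  by_contra h
  push Not at h
  have h1 : (univ : Set I) ⊆ ⋃ p, (S p : Set I) := fun i _ => by
    obtain ⟨p, hp⟩ := h i
    exact mem_iUnion.2 ⟨p, hp⟩
  have h2 : #(⋃ p, (S p : Set I)) ≤ continuum := by
    refine (mk_iUnion_le _).trans ?_
    have : ⨆ p, #(S p : Set I) ≤ ℵ₀ := ciSup_le' fun p => (S p).finite_toSet.lt_aleph0.le
    calc _ ≤ continuum * ℵ₀ := mul_le_mul' card_index this
      _ = continuum := by simp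
  have h3 := (mk_le_mk_of_subset h1).trans h2
  rw [mk_univ, mk_set, mk_real] at h3
  exact absurd h3 (not_le.2 (cantor _))

theorem exists_branch (nx : Y → I) : ∃ b : ℕ → I, ∀ n, b n = nx (node b n) := by
  classical
  let g : ℕ → ℕ → I := fun n => Nat.rec (fun _ => ∅)
    (fun n c => Function.update c n (nx (node c n))) n
  have hg : ∀ n, g (n + 1) = Function.update (g n) n (nx (node (g n) n)) := fun _ => rfl
  have h1 : ∀ n k, k < n → g n k = g (k + 1) k := by
    intro n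
    induction n with
    | zero => intro k hk; omega
    | succ n ih =>
      intro k hk
      by_cases hkn : k = n
      · rw [hkn]
      · rw [hg, Function.update_of_ne hkn, ih k (by omega)]
  refine ⟨fun k => g (k + 1) k, fun n => ?_⟩
  show g (n + 1) n = _
  rw [hg, Function.update_self]
  exact congrArg nx (node_congr fun k hk => h1 n k hk)

theorem exists_O {X : Type*} [TopologicalSpace X] [NormalSpace X] (H : ℕ → Set X)
    (hc : ∀ a, IsClosed (H a)) (hd : ∀ a b, a ≠ b → Disjoint (H a) (H b)) :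
    ∃ O : ℕ → ℕ → Set X, (∀ a b, IsOpen (O a b)) ∧ (∀ a b, H a ⊆ O a b) ∧
      ∀ a b, a ≠ b → Disjoint (O a b) (O b a) := by
  have h : ∀ a b, ∃ U V : Set X, IsOpen U ∧ IsOpen V ∧ H a ⊆ U ∧ H b ⊆ V ∧
      (a ≠ b → Disjoint U V) := by
    intro a b
    by_cases hab : a = b
    · exact ⟨univ, univ, isOpen_univ, isOpen_univ, subset_univ _, subset_univ _,
        fun h => absurd hab h⟩
    · obtain ⟨U, V, h1, h2, h3, h4, h5⟩ := normal_separation (hc a) (hc b) (hd a b hab)
      exact ⟨U, V, h1, h2, h3, h4, fun _ => h5⟩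
  choose U V h1 h2 h3 h4 h5 using h
  refine ⟨fun a b => U a b ∩ V b a, fun a b => (h1 a b).inter (h2 b a),
    fun a b => subset_inter (h3 a b) (h4 b a), fun a b hab => ?_⟩
  exact (h5 a b hab).mono inter_subset_left inter_subset_right

theorem not_image {X : Type*} [TopologicalSpace X] [T2Space X] [ParacompactSpace X] (f : X → Y)
    (hf : Continuous f)
    (hpo : ∀ (y : Y) (U : Set X), IsOpen U → f ⁻¹' {y} ⊆ U → y ∈ interior (f '' U))
    (hK : ∀ y, IsCompact (f ⁻¹' {y})) : False := by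
  classical
  -- separate the preimages of the levels
  obtain ⟨O, hOo, hOs, hOd⟩ := exists_O (fun a : ℕ => f ⁻¹' {u : Y | u.len = a})
    (fun a => (isClosed_level a).preimage hf) (fun a b hab => by
      rw [Set.disjoint_left]
      intro x h1 h2
      apply hab
      have : (a : ℕ∞) = b := (show (f x).len = a from h1).symm.trans h2
      exact_mod_cast this)
  -- locally finite refinements of the countable covers
  have hW : ∀ (s : Y) (m : ℕ) (π : ℕ → ℕ), ∃ W : ℕ → Set X, (∀ d, IsOpen (W d)) ∧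
      ⋃ d, W d = Set.univ ∧ LocallyFinite W ∧
      ∀ d, W d ⊆ (f ⁻¹' Fs s.c m)ᶜ ∪ O (m + d) (π d) := by
    intro s m π
    refine precise_refinement (fun d => (f ⁻¹' Fs s.c m)ᶜ ∪ O (m + d) (π d))
      (fun d => ((isClosed_Fs _ _).preimage hf).isOpen_compl.union (hOo _ _)) ?_
    rw [eq_univ_iff_forall]
    intro x
    by_cases hx : f x ∈ Fs s.c m
    · obtain ⟨n, hn⟩ := ENat.ne_top_iff_exists.1 hx.1
      have hmn : m ≤ n := by
        by_contra hlt
        have := (hx.2 n (by omega)).1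
        rw [← hn] at this
        exact lt_irrefl _ this
      refine mem_iUnion.2 ⟨n - m, Or.inr (hOs _ _ ?_)⟩
      show (f x).len = _
      rw [← hn, Nat.add_sub_cancel' hmn]
    · exact mem_iUnion.2 ⟨0, Or.inl hx⟩
  choose W hWo hWc hWl hWs using hW
  let A : Y → J → Set X := fun t j => W (node t.c j.1) j.1 j.2.1 j.2.2
  -- pseudo-openness gives the obstacles
  have hσ : ∀ (t : Y) (F : Finset J), ∃ σ : Y → Finset I, ∀ a : ℕ, t.len = a →
      f ⁻¹' {t} ⊆ ⋃ j ∈ F, A t j → ∃ Z, Bs t.c a σ Z ⊆ f '' ⋃ j ∈ F, A t j := by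
    intro t F
    by_cases h : ∃ a : ℕ, t.len = a ∧ f ⁻¹' {t} ⊆ ⋃ j ∈ F, A t j
    · obtain ⟨a, ha, hs⟩ := h
      have h1 := hpo t _ (isOpen_biUnion fun j _ => hWo _ _ _ _) hs
      obtain ⟨σ, Z, h2⟩ := isOpen_iff.1 isOpen_interior t h1 a ha
      refine ⟨σ, fun a' ha' _ => ⟨Z, ?_⟩⟩
      have : a = a' := by rw [ha] at ha'; exact_mod_cast ha'
      exact this ▸ h2.trans interior_subset
    · exact ⟨fun _ => ∅, fun a ha hs => absurd ⟨a, ha, hs⟩ h⟩
  choose σ hσ using hσ
  -- a branch avoiding all obstacles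
  have hnx : ∀ u : Y, ∃ i : I, ∀ p : ℕ × Finset J, i ∉ σ (node u.c p.1) p.2 u :=
    fun u => exists_next _
  choose nx hnx using hnx
  obtain ⟨b, hb⟩ := exists_branch nx
  have hx : ∀ n : ℕ, ∃ x, f x = node b n ∧ ∀ j, x ∈ A (node b n) j →
      (A (node b n) j ∩ f ⁻¹' {top b}).Nonempty := by
    intro n
    by_contra hcon
    push Not at hcon
    have hcov : f ⁻¹' {node b n} ⊆
        ⋃ j : {j : J // A (node b n) j ∩ f ⁻¹' {top b} = ∅}, A (node b n) j.1 := by
      intro x hx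
      obtain ⟨j, h1, h2⟩ := hcon x hx
      exact mem_iUnion.2 ⟨⟨j, h2⟩, h1⟩
    obtain ⟨F, hF⟩ := (hK (node b n)).elim_finite_subcover _ (fun j => hWo _ _ _ _) hcov
    have hF' : f ⁻¹' {node b n} ⊆ ⋃ j ∈ F.image Subtype.val, A (node b n) j := by
      intro x hx
      obtain ⟨j, hj, h⟩ := mem_iUnion₂.1 (hF hx)
      exact mem_iUnion₂.2 ⟨j.1, Finset.mem_image_of_mem _ hj, h⟩
    obtain ⟨Z, hZ⟩ := hσ (node b n) _ n rfl hF'
    have hb' : top b ∈ Bs (node b n).c n (σ (node b n) (F.image Subtype.val)) Z := by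
      refine ⟨by simp, fun k hk => (node_c hk).symm, fun k hk _ => ?_, fun z _ _ => by simp⟩
      have := hnx (node b k) (n, F.image Subtype.val)
      rw [node_node hk, ← hb k] at this
      exact this
    obtain ⟨x, hx1, hx2⟩ := hZ hb'
    obtain ⟨j, hj, h⟩ := mem_iUnion₂.1 hx1
    obtain ⟨j', -, rfl⟩ := Finset.mem_image.1 hj
    have : x ∈ A (node b n) j'.1 ∩ f ⁻¹' {top b} := ⟨h, hx2⟩
    rw [j'.2] at this
    exact this
  choose x hx1 hx2 using hx
  -- the ultrafilter argument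
  let 𝓗 := hyperfilter ℕ
  have hkill : ∃ m : ℕ, ∀ a, m ≤ a → ∃ c, {n | x n ∉ O a c} ∈ 𝓗 := by
    by_cases h : ∀ a, ∃ c, {n | x n ∉ O a c} ∈ 𝓗
    · exact ⟨0, fun a _ => h a⟩
    · push Not at h
      obtain ⟨c, hc⟩ := h
      refine ⟨c + 1, fun a ha => ⟨c, ?_⟩⟩
      have h1 : {n | x n ∉ O c a}ᶜ ∈ 𝓗 := Ultrafilter.compl_mem_iff_notMem.2 (hc a)
      refine mem_of_superset h1 fun n hn hn' => ?_
      have h2 : x n ∈ O c a := by simpa using hn
      exact Set.disjoint_left.1 (hOd a c (by omega)) hn' h2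
  obtain ⟨m, hm⟩ := hkill
  choose π hπ using fun d => hm (m + d) (by omega)
  have hi : ∀ n, ∃ d, x n ∈ W (node b m) m π d := fun n => by
    have : x n ∈ ⋃ d, W (node b m) m π d := hWc _ _ _ ▸ mem_univ _
    exact mem_iUnion.1 this
  choose i hi using hi
  have hfin := (hWl (node b m) m π).finite_nonempty_inter_compact (hK (top b))
  have hge : {n | m ≤ n} ∈ 𝓗 := by
    apply hyperfilter_le_cofinite
    rw [Nat.cofinite_eq_atTop]
    exact mem_atTop m
  have hU : (⋃ d ∈ {d | (W (node b m) m π d ∩ f ⁻¹' {top b}).Nonempty}, {n | m ≤ n ∧ i n = d})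
      ∈ 𝓗 := by
    refine mem_of_superset hge fun n hn => mem_iUnion₂.2 ⟨i n, ?_, hn, rfl⟩
    have h1 := hx2 n (m, π, i n)
    simp only [A, node_node (show m ≤ n from hn)] at h1
    exact h1 (hi n)
  obtain ⟨d, -, hd⟩ := (Ultrafilter.finite_biUnion_mem_iff hfin).1 hU
  obtain ⟨n, ⟨h1, h2⟩, h3⟩ := Ultrafilter.nonempty_of_mem (inter_mem hd (hπ d))
  rcases hWs _ _ _ _ (h2 ▸ hi n) with h | h
  · apply h
    show f (x n) ∈ Fs (node b m).c m
    rw [hx1 n]
    refine ⟨by simp, fun k hk => ⟨?_, ?_⟩⟩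
    · rw [node_len]; exact_mod_cast lt_of_lt_of_le hk h1
    · rw [node_c hk, node_c (lt_of_lt_of_le hk h1)]
  · exact h3 h

end Pool.Agent.Lib.MP_a57f84_gt.Q2
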