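import Mathlib

/-! The tree space: finite and infinite sequences of indices, infinite ones isolated. -/

set_option autoImplicit false

open Set Topology

namespace Pool.Agent.Lib.MP_a57f84_gt.Q2

abbrev I : Type := Set ℝ

def cut (c : ℕ → I) (m : ℕ) : ℕ → I := fun k => if k < m then c k else ∅

/-- Points: sequences of length `len` (finite or infinite), padded with the empty set. -/
@[ext] structure Y : Type where
  len : ℕ∞
  c : ℕ → I
  norm : ∀ k : ℕ, len ≤ k → c k = ∅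

def node (c : ℕ → I) (m : ℕ) : Y :=
  ⟨m, cut c m, fun k hk => by
    have : ¬ k < m := by
      rw [not_lt]; exact_mod_cast hk
    simp [cut, this]⟩

def top (c : ℕ → I) : Y := ⟨⊤, c, fun k hk => by simp at hk⟩

@[simp] theorem node_len (c : ℕ → I) (m : ℕ) : (node c m).len = m := rfl
@[simp] theorem top_len (c : ℕ → I) : (top c).len = ⊤ := rfl
@[simp] theorem top_c (c : ℕ → I) : (top c).c = c := rfl

theorem node_c {c : ℕ → I} {m k : ℕ} (h : k < m) : (node c m).c k = c k := by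
  simp [node, cut, h]

theorem node_congr {c c' : ℕ → I} {a : ℕ} (h : ∀ k < a, c k = c' k) : node c a = node c' a := by
  refine Y.ext rfl ?_
  funext k
  by_cases hk : k < a
  · simp [node, cut, hk, h k hk]
  · simp [node, cut, hk]

theorem node_self {t : Y} {a : ℕ} (h : t.len = a) : node t.c a = t := by
  refine Y.ext h.symm ?_
  funext k
  by_cases hk : k < a
  · simp [node, cut, hk]
  · have : t.c k = ∅ := t.norm k (by rw [h]; exact_mod_cast not_lt.1 hk)
    simp [node, cut, hk, this]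

theorem node_node {c : ℕ → I} {m a : ℕ} (h : m ≤ a) : node (node c a).c m = node c m :=
  node_congr fun _ hk => node_c (lt_of_lt_of_le hk h)

/-- Basic neighbourhoods of the finite node given by the first `a` terms of `c`. -/
def Bs (c : ℕ → I) (a : ℕ) (σ : Y → Finset I) (Z : Finset ℕ) : Set Y :=
  {u | (a : ℕ∞) ≤ u.len ∧ (∀ k < a, u.c k = c k) ∧
    (∀ k : ℕ, a ≤ k → (k : ℕ∞) < u.len → u.c k ∉ σ (node u.c k)) ∧
    ∀ z ∈ Z, z ≠ a → u.len ≠ z}

theorem Bs_mono {c : ℕ → I} {a : ℕ} {σ σ' : Y → Finset I} {Z Z' : Finset ℕ}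
    (h : ∀ y, σ y ⊆ σ' y) (hZ : Z ⊆ Z') : Bs c a σ' Z' ⊆ Bs c a σ Z := by
  rintro u ⟨h1, h2, h3, h4⟩
  exact ⟨h1, h2, fun k hk hk' hm => h3 k hk hk' (h _ hm), fun z hz => h4 z (hZ hz)⟩

theorem Bs_congr {c c' : ℕ → I} {a : ℕ} (h : ∀ k < a, c k = c' k) (σ : Y → Finset I)
    (Z : Finset ℕ) : Bs c a σ Z = Bs c' a σ Z := by
  ext u
  constructor
  · rintro ⟨h1, h2, h3, h4⟩
    exact ⟨h1, fun k hk => (h2 k hk).trans (h k hk), h3, h4⟩
  · rintro ⟨h1, h2, h3, h4⟩
    exact ⟨h1, fun k hk => (h2 k hk).trans (h k hk).symm, h3, h4⟩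

theorem mem_Bs_self {t : Y} {a : ℕ} (h : t.len = a) (σ : Y → Finset I) (Z : Finset ℕ) :
    t ∈ Bs t.c a σ Z := by
  refine ⟨h.ge, fun _ _ => rfl, fun k hk hk' => ?_, fun z _ hz hh => hz ?_⟩
  · rw [h] at hk'
    have : k < a := by exact_mod_cast hk'
    omega
  · rw [h] at hh
    exact_mod_cast hh.symm

open Classical in
instance : TopologicalSpace Y where
  IsOpen U := ∀ t ∈ U, ∀ a : ℕ, t.len = a → ∃ σ Z, Bs t.c a σ Z ⊆ U
  isOpen_univ := fun _ _ _ _ => ⟨fun _ => ∅, ∅, subset_univ _⟩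
  isOpen_inter := by
    intro U V hU hV t ht a ha
    obtain ⟨σ, Z, h⟩ := hU t ht.1 a ha
    obtain ⟨σ', Z', h'⟩ := hV t ht.2 a ha
    refine ⟨fun y => σ y ∪ σ' y, Z ∪ Z', subset_inter ?_ ?_⟩
    · exact (Bs_mono (fun _ => Finset.subset_union_left) Finset.subset_union_left).trans h
    · exact (Bs_mono (fun _ => Finset.subset_union_right) Finset.subset_union_right).trans h'
  isOpen_sUnion := by
    rintro S hS t ⟨U, hU, ht⟩ a ha
    obtain ⟨σ, Z, h⟩ := hS U hU t ht a ha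
    exact ⟨σ, Z, h.trans (subset_sUnion_of_mem hU)⟩

theorem isOpen_iff {U : Set Y} :
    IsOpen U ↔ ∀ t ∈ U, ∀ a : ℕ, t.len = a → ∃ σ Z, Bs t.c a σ Z ⊆ U := Iff.rfl

theorem isOpen_Bs (c : ℕ → I) (a : ℕ) (σ : Y → Finset I) (Z : Finset ℕ) :
    IsOpen (Bs c a σ Z) := by
  rw [isOpen_iff]
  rintro u ⟨h1, h2, h3, h4⟩ a' ha'
  have haa : a ≤ a' := by rw [ha'] at h1; exact_mod_cast h1
  refine ⟨σ, Z, ?_⟩
  rintro v ⟨g1, g2, g3, g4⟩
  refine ⟨le_trans (by exact_mod_cast haa) g1, fun k hk => ?_, fun k hk hk' => ?_,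
    fun z hz hza => ?_⟩
  · rw [g2 k (by omega), h2 k hk]
  · by_cases hka : k < a'
    · rw [g2 k hka, node_congr (c' := u.c) fun j hj => g2 j (by omega)]
      exact h3 k hk (by rw [ha']; exact_mod_cast hka)
    · exact g3 k (by omega) hk'
  · by_cases hz' : z = a'
    · exact absurd (by rw [ha', hz']) (h4 z hz hza)
    · exact g4 z hz hz'

theorem isOpen_of_top {U : Set Y} (h : ∀ u ∈ U, u.len = ⊤) : IsOpen U := by
  rw [isOpen_iff]
  intro t ht a ha
  rw [h t ht] at ha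
  exact absurd ha (by simp)

def E (k : ℕ) (i : I) : Set Y := {u | (k : ℕ∞) < u.len ∧ u.c k = i}

theorem isClopen_E (k : ℕ) (i : I) : IsClopen (E k i) := by
  constructor
  · rw [← isOpen_compl_iff, isOpen_iff]
    intro u hu a ha
    refine ⟨fun _ => {i}, ∅, ?_⟩
    rintro v ⟨g1, g2, g3, -⟩ ⟨e1, e2⟩
    by_cases hka : k < a
    · exact hu ⟨by rw [ha]; exact_mod_cast hka, by rw [← g2 k hka, e2]⟩
    · exact g3 k (by omega) e1 (by simp [e2])
  · rw [isOpen_iff]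
    rintro u ⟨e1, e2⟩ a ha
    have hka : k < a := by rw [ha] at e1; exact_mod_cast e1
    refine ⟨fun _ => ∅, ∅, ?_⟩
    rintro v ⟨g1, g2, -, -⟩
    exact ⟨lt_of_lt_of_le (by exact_mod_cast hka) g1, by rw [g2 k hka, e2]⟩

theorem exists_E {p q : Y} (hpq : p ≠ q) (hle : p.len ≤ q.len) :
    ∃ k i, q ∈ E k i ∧ p ∉ E k i := by
  rcases hle.eq_or_lt with h | h
  · have : p.c ≠ q.c := fun hc => hpq (Y.ext h hc)
    obtain ⟨k, hk⟩ := Function.ne_iff.1 this
    refine ⟨k, q.c k, ⟨?_, rfl⟩, fun hp => hk hp.2⟩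
    by_contra hlt
    rw [not_lt] at hlt
    exact hk (by rw [q.norm k hlt, p.norm k (h ▸ hlt)])
  · obtain ⟨a, ha⟩ := ENat.ne_top_iff_exists.1 (ne_top_of_lt h)
    refine ⟨a, q.c a, ⟨ha ▸ h, rfl⟩, fun hp => ?_⟩
    exact absurd hp.1 (by rw [ha]; exact lt_irrefl _)

instance : TotallySeparatedSpace Y := by
  rw [totallySeparatedSpace_iff_exists_isClopen]
  intro p q hpq
  rcases le_total p.len q.len with h | h
  · obtain ⟨k, i, h1, h2⟩ := exists_E hpq h
    exact ⟨(E k i)ᶜ, (isClopen_E k i).compl, h2, by simpa using h1⟩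
  · obtain ⟨k, i, h1, h2⟩ := exists_E hpq.symm h
    exact ⟨E k i, isClopen_E k i, h1, h2⟩

instance : T2Space Y := TotallySeparatedSpace.t2Space

theorem isClosed_level (a : ℕ) : IsClosed {u : Y | u.len = a} := by
  rw [← isOpen_compl_iff, isOpen_iff]
  intro u hu a' ha'
  refine ⟨fun _ => ∅, {a}, ?_⟩
  rintro v ⟨-, -, -, g4⟩
  refine g4 a (by simp) ?_
  rintro rfl
  exact hu ha'

/-- The finite nodes above the node given by the first `m` terms of `s`. -/
def Fs (s : ℕ → I) (m : ℕ) : Set Y := {u | u.len ≠ ⊤ ∧ ∀ k < m, u ∈ E k (s k)}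

theorem isClosed_Fs (s : ℕ → I) (m : ℕ) : IsClosed (Fs s m) := by
  have h1 : IsClosed {u : Y | u.len ≠ ⊤} := by
    rw [← isOpen_compl_iff]
    exact isOpen_of_top fun u hu => by simpa using hu
  have h2 : IsClosed (⋂ k ∈ {k | k < m}, E k (s k)) :=
    isClosed_biInter fun k _ => (isClopen_E k _).isClosed
  convert h1.inter h2 using 1
  ext u
  simp [Fs]

end Pool.Agent.Lib.MP_a57f84_gt.Q2
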