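import Pool.Agent.Lib.MP_a57f84_gt.RSpace

/-! The space is not a pseudo-open compact image of a paracompact Hausdorff space. -/

set_option autoImplicit false

open Set Topology Cardinal

namespace Pool.Agent.Lib.MP_a57f84_gt.R

theorem exists_next (S : Idx → Finset J) : ∃ i : J, ∀ p, i ∉ S p := by
  by_contra h
  push Not at h
  have h1 : (univ : Set J) ⊆ ⋃ p, (S p : Set J) := fun i _ => by
    obtain ⟨p, hp⟩ := h i
    exact mem_iUnion.2 ⟨p, hp⟩
  have h2 : #(⋃ p, (S p : Set J)) ≤ #Idx := by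
    refine (mk_iUnion_le _).trans ?_
    have : ⨆ p, #(S p : Set J) ≤ #Idx :=
      ciSup_le' fun p => (S p).finite_toSet.lt_aleph0.le.trans (aleph0_le_mk _)
    exact (mul_le_mul' le_rfl this).trans (mul_eq_self (aleph0_le_mk _)).le
  have h3 := (mk_le_mk_of_subset h1).trans h2
  rw [mk_univ, mk_set] at h3
  exact absurd h3 (not_le.2 (cantor _))

theorem not_image {X : Type*} [TopologicalSpace X] [T2Space X] [ParacompactSpace X] (f : X → Y)
    (hf : Continuous f)
    (hpo : ∀ (y : Y) (U : Set X), IsOpen U → f ⁻¹' {y} ⊆ U → y ∈ interior (f '' U))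
    (hK : ∀ y, IsCompact (f ⁻¹' {y})) : False := by
  classical
  -- separate a slice of a level from the lower levels
  have hO : ∀ p : ℕ × (ℕ → I), ∃ O O' : Set X, IsOpen O ∧ IsOpen O' ∧
      f ⁻¹' {u | u.len = p.1 ∧ u.z = p.2} ⊆ O ∧ f ⁻¹' {u | u.len < p.1} ⊆ O' ∧ Disjoint O O' := by
    intro p
    refine normal_separation ((isClosed_H _ _).preimage hf) ((isClosed_lt _).preimage hf) ?_
    rw [Set.disjoint_left]
    exact fun x h1 h2 => absurd (show (f x).len < p.1 from h2) (by rw [h1.1]; exact lt_irrefl _)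
  choose O O' hOo hO'o hOs hO's hOd using hO
  -- one locally finite refinement for every node
  have hV : ∀ (t : ℕ → J) (m : ℕ), ∃ V : ℕ × (ℕ → I) → Set X, (∀ p, IsOpen (V p)) ∧
      f ⁻¹' ({u | u.len ≠ ⊤} ∩ Bx t m (fun _ _ => ∅) (Classical.arbitrary _) 0) ⊆ ⋃ p, V p ∧
      LocallyFinite V ∧ ∀ p, V p ⊆ O p ∩ {_x | m ≤ p.1} := by
    intro t m
    refine precise_refinement_set ((isClosed_fin.inter (isClosed_Bx _ _ _ _ _)).preimage hf) _
      (fun p => (hOo p).inter isOpen_const) ?_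
    rintro x ⟨h1, h2, -⟩
    obtain ⟨n, hn⟩ := ENat.ne_top_iff_exists.1 h1
    rw [← hn] at h2
    exact mem_iUnion.2 ⟨(n, (f x).z), hOs _ ⟨hn.symm, rfl⟩, by exact_mod_cast h2⟩
  choose V hVo hVc hVl hVs using hV
  -- glued neighbourhoods of the finite levels
  have hN : ∀ θ : Θ, ∃ N : Set X, IsOpen N ∧ f ⁻¹' {u | u.len ≠ ⊤} ⊆ N ∧ closure N ⊆
      ⋃ m, ⋃ s, f ⁻¹' {u | cut u.z (θ m).1 = s} ∩
        ({_x | ¬m ≤ ((θ m).2 s).1} ∪ O' ((θ m).2 s)) := by
    intro θ
    refine normal_exists_closure_subset (isClosed_fin.preimage hf)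
      (isOpen_iUnion fun m => isOpen_iUnion fun s =>
        ((isOpen_z _ (· = s)).preimage hf).inter (isOpen_const.union (hO'o _))) fun x hx => ?_
    obtain ⟨n, hn⟩ := ENat.ne_top_iff_exists.1 hx
    refine mem_iUnion₂.2 ⟨n + 1, _, rfl, ?_⟩
    rw [mem_union, or_iff_not_imp_left]
    intro h
    refine hO's _ (show (f x).len < _ from ?_)
    rw [← hn]
    exact_mod_cast Nat.lt_of_succ_le (not_not.1 h)
  choose N hNo hNs hNc using hN
  -- pseudo-openness gives obstacles and radii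
  have hD : ∀ (t : ℕ → J) (n : ℕ) (z : ℕ → I), ∃ en : ℕ → ℕ → ℕ × (ℕ → I), ∀ Φ : Finset Θ,
      ∃ σ j, z ∈ M n → ∀ y ∈ Bx t n σ z j, ∃ x, f x = y ∧ (∀ θ ∈ Φ, x ∈ N θ) ∧
        ∀ m ≤ n, ∃ e, x ∈ V (cut t m) m (en m e) := by
    intro t n z
    by_cases hz : z ∈ M n
    swap
    · exact ⟨Classical.arbitrary _, fun _ => ⟨fun _ _ => ∅, 0, fun h => absurd h hz⟩⟩
    let y0 : Y := ⟨n, cut t n, z, fun k hk => if_neg (not_lt.2 (by exact_mod_cast hk)),
      fun k hk => by rwa [show k = n by exact_mod_cast hk.symm]⟩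
    choose en hen using fun m => countable_iff_exists_subset_range.1
      ((hVl (cut t m) m).finite_nonempty_inter_compact (hK y0)).countable
    refine ⟨en, fun Φ => ?_⟩
    have h1 := hpo y0 ((⋂ θ ∈ Φ, N θ) ∩ ⋂ m ∈ Iic n, ⋃ e, V (cut t m) m (en m e))
      ((isOpen_biInter_finset fun θ _ => hNo θ).inter
        ((finite_Iic n).isOpen_biInter fun m _ => isOpen_iUnion fun e => hVo _ _ _)) (by
        intro x hx
        have hx' : f x = y0 := hx
        have hl : (f x).len ≠ ⊤ := by rw [hx']; simp [y0]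
        refine ⟨mem_iInter₂.2 fun θ _ => hNs θ hl, mem_iInter₂.2 fun m hm => ?_⟩
        have hm' : m ≤ n := hm
        obtain ⟨p, hp⟩ := mem_iUnion.1 (hVc (cut t m) m (a := x) ⟨hl, by
          rw [hx']
          exact ⟨show (m : ℕ∞) ≤ n by exact_mod_cast hm', fun k hk =>
            (cut_lt (by omega)).trans (cut_lt hk).symm, fun _ _ _ => by simp,
            fun _ h => by omega⟩⟩)
        obtain ⟨e, he⟩ := hen m ⟨x, hp, hx⟩
        exact mem_iUnion.2 ⟨e, he ▸ hp⟩)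
    obtain ⟨σ, j, h2⟩ := isOpen_iff.1 isOpen_interior y0 h1 n rfl
    refine ⟨σ, j, fun _ y hy => ?_⟩
    obtain ⟨x, ⟨g1, g2⟩, g3⟩ := interior_subset (h2 (show y ∈ _ from
      ⟨hy.1, fun k hk => (hy.2.1 k hk).trans (cut_lt hk).symm, hy.2.2⟩))
    exact ⟨x, g3, mem_iInter₂.1 g1, fun m hm => mem_iUnion.1 (mem_iInter₂.1 g2 m hm)⟩
  choose en σ j hD using hD
  -- a branch of the tree avoiding all obstacles
  choose nx hnx using fun (k : ℕ) (u : ℕ → J) =>
    exists_next fun p => σ (cut u p.1) p.1 p.2.1 p.2.2 k u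
  obtain ⟨b, hb⟩ := exists_branch nx
  -- a sequence generic for a closed family of neighbourhoods
  choose ρ hρ using fun (n : ℕ) (Φ : Finset Θ) => bar n fun z => j (cut b n) n z Φ
  have hζ : ∀ (n : ℕ) (Φ : Finset Θ) (l : ℕ) (s : ℕ → I), ∃ ζ : ℕ → I,
      (∃ z, z ∈ M n ∧ j (cut b n) n z Φ ≤ l ∧ ∀ k < j (cut b n) n z Φ, z k = s k) →
        ζ ∈ M n ∧ j (cut b n) n ζ Φ ≤ l ∧ ∀ k < j (cut b n) n ζ Φ, ζ k = s k := by
    intro n Φ l s
    by_cases h : ∃ z, z ∈ M n ∧ j (cut b n) n z Φ ≤ l ∧ ∀ k < j (cut b n) n z Φ, z k = s k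
    · exact ⟨h.choose, fun _ => h.choose_spec⟩
    · exact ⟨s, fun h' => absurd h' h⟩
  choose ζ hζ using hζ
  obtain ⟨ι, ev, hι, hne, hev⟩ := exists_closed (D := Option (ℕ → ℕ × ℕ × ℕ))
    (by simp [add_one_eq aleph0_le_continuum])
    (∅ : Finset Θ) fun d h => d.elim (h 0 ∪ h 1) fun ν =>
      {fun m => ((ν m).1, fun s => en (cut b (ν m).2.1) (ν m).2.1
        (ζ (ν m).2.1 (h m) (ν m).1 s) m (ν m).2.2)}
  have hι' : #(ℕ × ι) ≤ continuum := by
    rw [mk_prod, lift_id, lift_id, mk_nat]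
    exact (mul_le_mul' aleph0_le_continuum hι).trans continuum_mul_self.le
  choose nz hnz using fun (k : ℕ) (s : ℕ → I) =>
    exists_bound hι' fun p => ρ p.1 (ev p.2) k s
  obtain ⟨x, hx⟩ := exists_branch nz
  -- a point of the fibre close to all levels
  let y : Y := ⟨⊤, b, x, fun k hk => by simp at hk, fun k hk => by simp at hk⟩
  let Old : ℕ → Set (ℕ × (ℕ → I)) := fun m =>
    {p | ∃ l n e i, p = en (cut b n) n (ζ n (ev i) l (cut x l)) m e}
  let C : ℕ × ι → Set X := fun p => f ⁻¹' {y} ∩ ((⋂ θ ∈ ev p.2, closure (N θ)) ∩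
    ⋂ m ∈ Iic p.1, closure (⋃ w : Old m, V (cut b m) m w))
  have hcl : ∀ p : ℕ × ι, IsClosed ((⋂ θ ∈ ev p.2, closure (N θ)) ∩
      ⋂ m ∈ Iic p.1, closure (⋃ w : Old m, V (cut b m) m w)) := fun p =>
    (isClosed_biInter fun _ _ => isClosed_closure).inter
      (isClosed_biInter fun _ _ => isClosed_closure)
  obtain ⟨q, hq⟩ := IsCompact.nonempty_iInter_of_directed_nonempty_isCompact_isClosed C
    (by
      rintro ⟨n, i⟩ ⟨n', i'⟩
      obtain ⟨i'', h⟩ := hev none fun k => if k = 0 then i else i'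
      have h' : ev i'' = ev i ∪ ev i' := h
      refine ⟨(max n n', i''), ?_, ?_⟩ <;>
      · refine inter_subset_inter_right _ (inter_subset_inter
          (biInter_subset_biInter_left fun θ hθ => ?_)
          (biInter_subset_biInter_left (Iic_subset_Iic.2 (by simp))))
        rw [h', Finset.coe_union]
        first | exact Or.inl hθ | exact Or.inr hθ)
    (by
      rintro ⟨n, i⟩
      obtain ⟨z, h1, h2⟩ := hρ n (ev i) x fun k => hx k ▸ hnz k _ (n, i)
      obtain ⟨g1, g2, g3⟩ := hζ n (ev i) _ (cut x (j (cut b n) n z (ev i)))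
        ⟨z, h1, le_rfl, fun k hk => (h2 k hk).trans (cut_lt hk).symm⟩
      obtain ⟨p, e1, e2, e3⟩ := hD (cut b n) n _ (ev i) g1 y
        ⟨le_top, fun k hk => (cut_lt hk).symm, fun k hk _ => by
          have := hnx k (cut b k) (n, ζ n (ev i) (j (cut b n) n z (ev i))
            (cut x (j (cut b n) n z (ev i))), ev i)
          rwa [cut_cut hk, ← hb k] at this,
          fun k hk => ((g3 k hk).trans (cut_lt (lt_of_lt_of_le hk g2))).symm⟩
      refine ⟨p, e1, mem_iInter₂.2 fun θ hθ => subset_closure (e2 θ hθ),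
        mem_iInter₂.2 fun m hm => subset_closure ?_⟩
      obtain ⟨e, he⟩ := e3 m hm
      rw [cut_cut (show m ≤ n from hm)] at he
      exact mem_iUnion.2 ⟨⟨_, _, n, e, i, rfl⟩, he⟩)
    (fun p => (hK y).inter_right (hcl p))
    (fun p => (hK y).isClosed.inter (hcl p))
  have hq' := mem_iInter.1 hq
  have hw : ∀ m, ∃ l n e i, q ∈ closure
      (V (cut b m) m (en (cut b n) n (ζ n (ev i) l (cut x l)) m e)) := by
    intro m
    have h := mem_iInter₂.1 (hq' (m, hne.some)).2.2 m (mem_Iic.2 le_rfl)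
    have hl : LocallyFinite fun w : Old m => V (cut b m) m w :=
      (hVl (cut b m) m).comp_injective Subtype.val_injective
    rw [hl.closure_iUnion] at h
    obtain ⟨⟨_, l, n, e, i, rfl⟩, h⟩ := mem_iUnion.1 h
    exact ⟨l, n, e, i, h⟩
  choose l n e i hw using hw
  obtain ⟨i0, hi0⟩ := hev (some fun m => (l m, n m, e m)) i
  have h1 := mem_iInter₂.1 (hq' (0, i0)).2.1 _
    (by rw [hi0]; exact Finset.mem_singleton_self _)
  obtain ⟨m, s, h2, h3⟩ := mem_iUnion₂.1 (hNc _ h1)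
  have hfq : f q = y := (hq' (0, i0)).1
  have h4 : cut x (l m) = s := by simpa [hfq, y] using h2
  subst h4
  rcases h3 with h3 | h3
  · obtain ⟨_, h5⟩ := closure_nonempty_iff.1 ⟨q, hw m⟩
    exact h3 (hVs _ _ _ h5).2
  · exact Set.disjoint_left.1 ((hOd _).closure_left (hO'o _))
      (closure_mono (fun _ h => (hVs _ _ _ h).1) (hw m)) h3

end Pool.Agent.Lib.MP_a57f84_gt.R
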