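import Pool.Agent.Lib.MP_a57f84_gt.RStat

/-! The space: pairs of a node of a tree and a sequence whose level is the length of the node. -/

set_option autoImplicit false

open Set Topology

namespace Pool.Agent.Lib.MP_a57f84_gt.R

abbrev Θ : Type := ℕ → ℕ × ((ℕ → I) → ℕ × (ℕ → I))

abbrev Idx : Type := ℕ × (ℕ → I) × Finset Θ

abbrev J : Type := Set Idx

/-- Points: a sequence `c` of length `len` and a sequence `z` of level `len` if that is finite. -/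
@[ext] structure Y : Type where
  len : ℕ∞
  c : ℕ → J
  z : ℕ → I
  norm : ∀ k : ℕ, len ≤ k → c k = Classical.arbitrary J
  lev : ∀ n : ℕ, len = n → z ∈ M n

/-- Basic neighbourhoods. -/
def Bx (c : ℕ → J) (a : ℕ) (σ : ℕ → (ℕ → J) → Finset J) (x : ℕ → I) (j : ℕ) : Set Y :=
  {u | (a : ℕ∞) ≤ u.len ∧ (∀ k < a, u.c k = c k) ∧
    (∀ k : ℕ, a ≤ k → (k : ℕ∞) < u.len → u.c k ∉ σ k (cut u.c k)) ∧ ∀ k < j, u.z k = x k}

theorem Bx_mono {c : ℕ → J} {a : ℕ} {σ σ' : ℕ → (ℕ → J) → Finset J} {x : ℕ → I} {j j' : ℕ}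
    (h : ∀ k y, σ k y ⊆ σ' k y) (hj : j ≤ j') : Bx c a σ' x j' ⊆ Bx c a σ x j := by
  rintro u ⟨h1, h2, h3, h4⟩
  exact ⟨h1, h2, fun k hk hk' hm => h3 k hk hk' (h _ _ hm), fun k hk => h4 k (by omega)⟩

theorem mem_Bx_self {t : Y} {a : ℕ} (h : t.len = a) (σ : ℕ → (ℕ → J) → Finset J) (j : ℕ) :
    t ∈ Bx t.c a σ t.z j := by
  refine ⟨h.ge, fun _ _ => rfl, fun k hk hk' => ?_, fun _ _ => rfl⟩
  rw [h] at hk'
  have : k < a := by exact_mod_cast hk'
  omega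

open Classical in
instance : TopologicalSpace Y where
  IsOpen U := ∀ t ∈ U, ∀ a : ℕ, t.len = a → ∃ σ j, Bx t.c a σ t.z j ⊆ U
  isOpen_univ := fun _ _ _ _ => ⟨fun _ _ => ∅, 0, subset_univ _⟩
  isOpen_inter := by
    intro U V hU hV t ht a ha
    obtain ⟨σ, j, h⟩ := hU t ht.1 a ha
    obtain ⟨σ', j', h'⟩ := hV t ht.2 a ha
    refine ⟨fun k y => σ k y ∪ σ' k y, max j j', subset_inter ?_ ?_⟩
    · exact (Bx_mono (fun _ _ => Finset.subset_union_left) (le_max_left _ _)).trans h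
    · exact (Bx_mono (fun _ _ => Finset.subset_union_right) (le_max_right _ _)).trans h'
  isOpen_sUnion := by
    rintro S hS t ⟨U, hU, ht⟩ a ha
    obtain ⟨σ, j, h⟩ := hS U hU t ht a ha
    exact ⟨σ, j, h.trans (subset_sUnion_of_mem hU)⟩

theorem isOpen_iff {U : Set Y} :
    IsOpen U ↔ ∀ t ∈ U, ∀ a : ℕ, t.len = a → ∃ σ j, Bx t.c a σ t.z j ⊆ U := Iff.rfl

theorem isOpen_Bx (c : ℕ → J) (a : ℕ) (σ : ℕ → (ℕ → J) → Finset J) (x : ℕ → I) (j : ℕ) :
    IsOpen (Bx c a σ x j) := by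
  rw [isOpen_iff]
  rintro u ⟨h1, h2, h3, h4⟩ a' ha'
  have haa : a ≤ a' := by rw [ha'] at h1; exact_mod_cast h1
  refine ⟨σ, j, ?_⟩
  rintro v ⟨g1, g2, g3, g4⟩
  refine ⟨le_trans (by exact_mod_cast haa) g1, fun k hk => ?_, fun k hk hk' => ?_,
    fun k hk => (g4 k hk).trans (h4 k hk)⟩
  · rw [g2 k (by omega), h2 k hk]
  · by_cases hka : k < a'
    · rw [g2 k hka, cut_congr (c' := u.c) fun j hj => g2 j (by omega)]
      exact h3 k hk (by rw [ha']; exact_mod_cast hka)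
    · exact g3 k (by omega) hk'

theorem isClosed_Bx (c : ℕ → J) (a : ℕ) (σ : ℕ → (ℕ → J) → Finset J) (x : ℕ → I) (j : ℕ) :
    IsClosed (Bx c a σ x j) := by
  rw [← isOpen_compl_iff, isOpen_iff]
  intro u hu a' ha'
  refine ⟨fun k _ => {c k}, j, ?_⟩
  rintro v ⟨g1, g2, g3, g4⟩ ⟨h1, h2, h3, h4⟩
  have haa : a ≤ a' := by
    by_contra h
    exact g3 a' le_rfl (lt_of_lt_of_le (by exact_mod_cast not_le.1 h) h1)
      (by simp [h2 a' (by omega)])
  refine hu ⟨by rw [ha']; exact_mod_cast haa, fun k hk => ?_, fun k hk hk' => ?_,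
    fun k hk => (g4 k hk).symm.trans (h4 k hk)⟩
  · rw [← g2 k (by omega), h2 k hk]
  · have hka : k < a' := by rw [ha'] at hk'; exact_mod_cast hk'
    rw [← g2 k hka, cut_congr (c' := v.c) fun j hj => (g2 j (by omega)).symm]
    exact h3 k hk (lt_of_lt_of_le (by exact_mod_cast hka) g1)

theorem isOpen_of_top {U : Set Y} (h : ∀ u ∈ U, u.len = ⊤) : IsOpen U := by
  rw [isOpen_iff]
  intro t ht a ha
  rw [h t ht] at ha
  exact absurd ha (by simp)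

theorem isOpen_z (j : ℕ) (P : (ℕ → I) → Prop) : IsOpen {u : Y | P (cut u.z j)} := by
  rw [isOpen_iff]
  intro u hu a _
  refine ⟨fun _ _ => ∅, j, ?_⟩
  rintro v ⟨-, -, -, g4⟩
  show P _
  rwa [cut_congr g4]

theorem exists_sep {p q : Y} (hpq : p ≠ q) (hle : p.len ≤ q.len) :
    ∃ U, IsClopen U ∧ q ∈ U ∧ p ∉ U := by
  have hB : ∀ k : ℕ, (k : ℕ∞) < q.len → q ∈ Bx q.c (k + 1) (fun _ _ => ∅) q.z (k + 1) :=
    fun k hk => ⟨by exact_mod_cast Order.add_one_le_of_lt hk, fun _ _ => rfl,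
      fun _ _ _ => by simp, fun _ _ => rfl⟩
  by_cases hz : p.z = q.z
  · rcases hle.eq_or_lt with h | h
    · have : p.c ≠ q.c := fun hc => hpq (Y.ext h hc hz)
      obtain ⟨k, hk⟩ := Function.ne_iff.1 this
      refine ⟨_, ⟨isClosed_Bx _ _ _ _ _, isOpen_Bx _ _ _ _ _⟩, hB k ?_,
        fun hp => hk (hp.2.1 k (by omega))⟩
      by_contra hlt
      rw [not_lt] at hlt
      exact hk (by rw [q.norm k hlt, p.norm k (h ▸ hlt)])
    · obtain ⟨a, ha⟩ := ENat.ne_top_iff_exists.1 (ne_top_of_lt h)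
      refine ⟨_, ⟨isClosed_Bx _ _ _ _ _, isOpen_Bx _ _ _ _ _⟩, hB a (ha ▸ h), fun hp => ?_⟩
      have := hp.1
      rw [← ha] at this
      have : a + 1 ≤ a := by exact_mod_cast this
      omega
  · obtain ⟨k, hk⟩ := Function.ne_iff.1 hz
    exact ⟨Bx q.c 0 (fun _ _ => ∅) q.z (k + 1), ⟨isClosed_Bx _ _ _ _ _, isOpen_Bx _ _ _ _ _⟩,
      ⟨by simp, fun _ _ => rfl, fun _ _ _ => by simp, fun _ _ => rfl⟩,
      fun hp => hk (hp.2.2.2 k (by omega))⟩

instance : TotallySeparatedSpace Y := by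
  rw [totallySeparatedSpace_iff_exists_isClopen]
  intro p q hpq
  rcases le_total p.len q.len with h | h
  · obtain ⟨U, h0, h1, h2⟩ := exists_sep hpq h
    exact ⟨Uᶜ, h0.compl, h2, by simpa using h1⟩
  · obtain ⟨U, h0, h1, h2⟩ := exists_sep hpq.symm h
    exact ⟨U, h0, h1, h2⟩

instance : T2Space Y := TotallySeparatedSpace.t2Space

theorem basis_clopen : TopologicalSpace.IsTopologicalBasis {s : Set Y | IsClopen s} := by
  refine TopologicalSpace.isTopologicalBasis_of_isOpen_of_nhds (fun _ h => h.isOpen) ?_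
  intro u U hu hU
  by_cases h : u.len = ⊤
  · exact ⟨{u}, ⟨isClosed_singleton, isOpen_of_top fun v hv => by rw [hv, h]⟩, rfl,
      singleton_subset_iff.2 hu⟩
  · obtain ⟨n, hn⟩ := ENat.ne_top_iff_exists.1 h
    obtain ⟨σ, j, hs⟩ := isOpen_iff.1 hU u hu n hn.symm
    exact ⟨_, ⟨isClosed_Bx _ _ _ _ _, isOpen_Bx _ _ _ _ _⟩, mem_Bx_self hn.symm σ j, hs⟩

instance : CompletelyRegularSpace Y :=
  CompletelyRegularSpace.of_isTopologicalBasis_clopens basis_clopen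

instance : T35Space Y where

theorem isClosed_lt (c : ℕ) : IsClosed {u : Y | u.len < c} := by
  rw [← isOpen_compl_iff, isOpen_iff]
  intro u hu a ha
  refine ⟨fun _ _ => ∅, 0, ?_⟩
  rintro v ⟨g1, -⟩ hv
  exact hu (show u.len < c from ha ▸ lt_of_le_of_lt g1 hv)

theorem isClosed_fin : IsClosed {u : Y | u.len ≠ ⊤} := by
  rw [← isOpen_compl_iff]
  exact isOpen_of_top fun u hu => by simpa using hu

theorem isClosed_H (c : ℕ) (w : ℕ → I) : IsClosed {u : Y | u.len = c ∧ u.z = w} := by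
  rw [← isOpen_compl_iff, isOpen_iff]
  intro u hu a ha
  by_cases hz : u.z = w
  · refine ⟨fun _ _ => ∅, 0, ?_⟩
    rintro v - ⟨h1, h2⟩
    have e : a = c := M_unique (z := w) (hz ▸ u.lev a ha) (h2 ▸ v.lev c h1)
    exact hu ⟨e ▸ ha, hz⟩
  · obtain ⟨k, hk⟩ := Function.ne_iff.1 hz
    refine ⟨fun _ _ => ∅, k + 1, ?_⟩
    rintro v ⟨-, -, -, g4⟩ ⟨-, h2⟩
    exact hk (by rw [← g4 k (by omega), h2])

theorem exists_sel {P : Type} {r : P → P → Prop} (wf : WellFounded r) (C : P → P → Prop) :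
    ∃ Sel : P → Prop, ∀ p, Sel p ↔ ¬∃ p', r p' p ∧ Sel p' ∧ C p' p := by
  refine ⟨wf.fix fun p ih => ¬∃ p', ∃ h : r p' p, ih p' h ∧ C p' p, fun p => ?_⟩
  rw [WellFounded.fix_eq]
  simp only [exists_prop]

theorem pointFinite_Y (𝒰 : Set (Set Y)) (hU : ∀ U ∈ 𝒰, IsOpen U) (hc : ⋃₀ 𝒰 = univ) :
    ∃ 𝒱 : Set (Set Y), (∀ V ∈ 𝒱, IsOpen V) ∧ ⋃₀ 𝒱 = univ ∧ (∀ V ∈ 𝒱, ∃ U ∈ 𝒰, V ⊆ U) ∧
      ∀ y : Y, {V ∈ 𝒱 | y ∈ V}.Finite := by
  classical
  have hmem : ∀ t : Y, ∃ U ∈ 𝒰, t ∈ U := fun t => by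
    have : t ∈ ⋃₀ 𝒰 := hc ▸ mem_univ t
    exact this
  have h0 : ∀ t : {t : Y // t.len ≠ ⊤}, ∃ (a : ℕ) (σ : ℕ → (ℕ → J) → Finset J) (j : ℕ),
      t.1.len = a ∧ a < j ∧ ∃ U ∈ 𝒰, Bx t.1.c a σ t.1.z j ⊆ U := by
    intro t
    obtain ⟨U, hU', ht⟩ := hmem t
    obtain ⟨n, hn⟩ := ENat.ne_top_iff_exists.1 t.2
    obtain ⟨σ, j, hs⟩ := isOpen_iff.1 (hU U hU') t ht n hn.symm
    exact ⟨n, σ, max j (n + 1), hn.symm, by omega, U, hU',
      (Bx_mono (fun _ _ => subset_rfl) (le_max_left _ _)).trans hs⟩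
  choose a σ j ha hj hσ using h0
  let B : {t : Y // t.len ≠ ⊤} → Set Y := fun t => Bx t.1.c (a t) (σ t) t.1.z (j t)
  have wf : WellFounded (InvImage (Prod.Lex (· < ·) WellOrderingRel)
      fun t : {t : Y // t.len ≠ ⊤} => (j t, t)) :=
    InvImage.wf _ (WellFounded.prod_lex wellFounded_lt WellOrderingRel.isWellOrder.wf)
  obtain ⟨Sel, hSel⟩ := exists_sel wf fun p' p => p.1 ∈ B p'
  have key : ∀ y p' p, y ∈ B p' → y ∈ B p → a p' ≤ a p → j p' ≤ j p → p.1 ∈ B p' := by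
    rintro y p' p ⟨-, h2, h3, h4⟩ ⟨g1, g2, -, g4⟩ e1 e2
    refine ⟨by rw [ha]; exact_mod_cast e1, fun k hk => ?_, fun k hk hk' => ?_, fun k hk => ?_⟩
    · rw [← g2 k (by omega), h2 k hk]
    · have hka : k < a p := by rw [ha] at hk'; exact_mod_cast hk'
      rw [← g2 k hka, cut_congr (c' := y.c) fun i hi => (g2 i (by omega)).symm]
      exact h3 k hk (lt_of_lt_of_le (by exact_mod_cast hka) g1)
    · rw [← g4 k (by omega), h4 k hk]
  refine ⟨B '' {p | Sel p} ∪ {V | ∃ u : Y, u.len = ⊤ ∧ V = {u}}, ?_, ?_, ?_, ?_⟩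
  · rintro V (⟨p, -, rfl⟩ | ⟨u, hu, rfl⟩)
    · exact isOpen_Bx _ _ _ _ _
    · exact isOpen_of_top fun v hv => by rw [hv, hu]
  · rw [eq_univ_iff_forall]
    intro u
    by_cases h : u.len = ⊤
    · exact ⟨{u}, Or.inr ⟨u, h, rfl⟩, rfl⟩
    · by_cases hs : Sel ⟨u, h⟩
      · exact ⟨_, Or.inl ⟨_, hs, rfl⟩, mem_Bx_self (ha ⟨u, h⟩) _ _⟩
      · obtain ⟨p', -, h1, h2⟩ := not_not.1 (mt (hSel _).2 hs)
        exact ⟨_, Or.inl ⟨_, h1, rfl⟩, h2⟩
  · rintro V (⟨p, -, rfl⟩ | ⟨u, hu, rfl⟩)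
    · exact hσ p
    · obtain ⟨U, hU', ht⟩ := hmem u
      exact ⟨U, hU', singleton_subset_iff.2 ht⟩
  · intro y
    have hfin : {p | Sel p ∧ y ∈ B p}.Finite := by
      rcases Set.eq_empty_or_nonempty {p | Sel p ∧ y ∈ B p} with h | ⟨p0, h0⟩
      · rw [h]; exact finite_empty
      refine Set.Finite.of_finite_image (f := a) ((finite_Iio (j p0)).subset ?_) ?_
      · rintro _ ⟨p, hp, rfl⟩
        by_contra hlt
        have h1 : j p0 ≤ a p := not_lt.1 hlt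
        have := hj p
        have := hj p0
        exact (hSel p).1 hp.1 ⟨p0, Prod.Lex.left _ _ (by omega), h0.1,
          key y _ _ h0.2 hp.2 (by omega) (by omega)⟩
      · have h2 : ∀ p p', Sel p ∧ y ∈ B p → Sel p' ∧ y ∈ B p' → a p = a p' →
            ¬Prod.Lex (· < ·) WellOrderingRel (j p', p') (j p, p) := by
          intro p p' hp hp' e hr
          refine (hSel p).1 hp.1 ⟨p', hr, hp'.1, key y _ _ hp'.2 hp.2 e.ge ?_⟩
          rcases Prod.lex_def.1 hr with h | h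
          · exact le_of_lt h
          · exact h.1.le
        intro p hp p' hp' e
        have h3 := h2 p p' hp hp' e
        have h4 := h2 p' p hp' hp e.symm
        simp only [Prod.lex_def, not_or, not_and, not_lt] at h3 h4
        have e' : j p = j p' := le_antisymm h3.1 h4.1
        rcases trichotomous_of WellOrderingRel p p' with h | h | h
        · exact absurd h (h4.2 e')
        · exact h
        · exact absurd h (h3.2 e'.symm)
    refine ((hfin.image B).insert {y}).subset ?_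
    rintro V ⟨⟨p, hp, rfl⟩ | ⟨u, hu, rfl⟩, hy⟩
    · exact Or.inr ⟨p, ⟨hp, hy⟩, rfl⟩
    · left
      rw [mem_singleton_iff.1 hy]

end Pool.Agent.Lib.MP_a57f84_gt.R
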