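import Mathlib

/-! Disjoint stationary sets in `𝔠⁺`, the levels they define on sequences, and closure under
countable operations. -/

set_option autoImplicit false

open Set Cardinal

namespace Pool.Agent.Lib.MP_a57f84_gt.R

/-- The well-order of type `𝔠⁺`. -/
abbrev I : Type := (Order.succ continuum.{0}).ord.ToType

theorem card_Iio (d : I) : #(Iio d) ≤ continuum :=
  Order.lt_succ_iff.1 ((mk_Iio_lt d (by simp)).trans_eq (mk_ord_toType _))

theorem card_Iic (d : I) : #(Iic d) ≤ continuum := by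
  rw [← Iio_insert]
  refine mk_insert_le.trans ?_
  calc #(Iio d) + 1 ≤ continuum + continuum :=
        add_le_add (card_Iio d) (one_le_aleph0.trans aleph0_le_continuum)
    _ = continuum := continuum_add_self

theorem lt_card_I : continuum < #I := by
  rw [mk_ord_toType]; exact Order.lt_succ _

instance : Nonempty I := mk_ne_zero_iff.1 (ne_of_gt (continuum_pos.trans lt_card_I))

theorem exists_bound {ι : Type} (h : #ι ≤ continuum) (g : ι → I) : ∃ d, ∀ i, g i < d := by
  by_contra hc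
  push Not at hc
  have h1 : (univ : Set I) ⊆ ⋃ i, Iic (g i) := fun d _ => mem_iUnion.2 (hc d)
  have h2 : #(⋃ i, Iic (g i)) ≤ continuum := by
    refine (mk_iUnion_le _).trans ?_
    have : ⨆ i, #(Iic (g i)) ≤ continuum := ciSup_le' fun i => card_Iic _
    calc _ ≤ continuum * continuum := mul_le_mul' h this
      _ = continuum := continuum_mul_self
  have h3 := (mk_le_mk_of_subset h1).trans h2
  rw [mk_univ] at h3
  exact absurd h3 (not_le.2 lt_card_I)

/-- `δ` is closed under `g` and has cofinality `ω`. -/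
def Cl (g : I → I) (δ : I) : Prop :=
  (∀ η < δ, g η < δ) ∧ ∃ d : ℕ → I, (∀ k, d k < δ) ∧ IsLUB (range d) δ

theorem exists_cl (g : I → I) (α : I) : ∃ δ, α < δ ∧ Cl g δ := by
  have h : ∀ e : I, ∃ e', e < e' ∧ ∀ η ≤ e, g η < e' := by
    intro e
    obtain ⟨d, hd⟩ := exists_bound (card_Iic e) fun η => max e (g η)
    exact ⟨d, (max_lt_iff.1 (hd ⟨e, mem_Iic.2 le_rfl⟩)).1, fun η hη => (max_lt_iff.1 (hd ⟨η, hη⟩)).2⟩
  choose nx h1 h2 using h
  let d : ℕ → I := fun k => nx^[k] α
  have hd : ∀ k, d (k + 1) = nx (d k) := fun k => Function.iterate_succ_apply' _ _ _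
  obtain ⟨u, hu⟩ := exists_bound (by simpa using aleph0_le_continuum) d
  have hne : (upperBounds (range d)).Nonempty := ⟨u, by rintro _ ⟨k, rfl⟩; exact (hu k).le⟩
  obtain ⟨δ, hδ, hmin⟩ := wellFounded_lt.has_min _ hne
  have hlub : IsLUB (range d) δ := ⟨hδ, fun v hv => not_lt.1 (hmin v hv)⟩
  have hlt : ∀ k, d k < δ := fun k => (hd k ▸ h1 (d k)).trans_le (hδ ⟨k + 1, rfl⟩)
  refine ⟨δ, hlt 0, fun η hη => ?_, d, hlt, hlub⟩
  obtain ⟨_, ⟨k, rfl⟩, hk, -⟩ := hlub.exists_between hη
  exact (hd k ▸ h2 _ η hk.le).trans (hlt (k + 1))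

theorem exists_stat : ∃ S : ℕ → Set I, (∀ a b, a ≠ b → Disjoint (S a) (S b)) ∧
    ∀ n g, ∃ δ ∈ S n, Cl g δ := by
  classical
  have he : ∀ δ : I, ∃ e : I → ℝ, InjOn e (Iio δ) := by
    intro δ
    obtain ⟨e⟩ : Nonempty (Iio δ ↪ ℝ) := by
      rw [← Cardinal.le_def, mk_real]; exact card_Iio δ
    refine ⟨fun a => if h : a < δ then e ⟨a, h⟩ else 0, fun a ha b hb hab => ?_⟩
    simp only [dif_pos (mem_Iio.1 ha), dif_pos (mem_Iio.1 hb)] at hab
    exact congrArg Subtype.val (e.injective hab)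
  choose e he using he
  have hξ : ∀ α : I, ∃ ξ : ℝ, ∀ g, ∃ δ, (α < δ ∧ e δ α = ξ) ∧ Cl g δ := by
    intro α
    by_contra hc
    push Not at hc
    choose g hg using hc
    choose G hG using fun η => exists_bound mk_real.le fun ξ => g ξ η
    obtain ⟨δ, h1, h2, h3⟩ := exists_cl G α
    exact hg (e δ α) δ ⟨h1, rfl⟩ ⟨fun η hη => (hG η _).trans (h2 η hη), h3⟩
  choose ξ hξ using hξ
  obtain ⟨r, hr⟩ := exists_infinite_fiber' ξ (by rw [mk_real]; exact lt_card_I)
  let a : ℕ ↪ ξ ⁻¹' {r} := Infinite.natEmbedding _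
  refine ⟨fun n => {δ | (a n).1 < δ ∧ e δ (a n).1 = r}, fun m n hmn => ?_, fun n g => ?_⟩
  · rw [Set.disjoint_left]
    rintro δ ⟨h1, h2⟩ ⟨h3, h4⟩
    exact hmn (a.injective (Subtype.ext (he δ h1 h3 (h2.trans h4.symm))))
  · obtain ⟨δ, ⟨h1, h2⟩, h3⟩ := hξ (a n).1 g
    exact ⟨δ, ⟨h1, h2.trans (a n).2⟩, h3⟩

/-- The sequences of level `n`. -/
def M (n : ℕ) : Set (ℕ → I) := {z | ∃ δ ∈ exists_stat.choose n, IsLUB (range z) δ}

theorem M_unique {a b : ℕ} {z : ℕ → I} (ha : z ∈ M a) (hb : z ∈ M b) : a = b := by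
  obtain ⟨δ, h1, h2⟩ := ha
  obtain ⟨δ', h3, h4⟩ := hb
  by_contra h
  exact Set.disjoint_left.1 (exists_stat.choose_spec.1 a b h) h1 (h2.unique h4 ▸ h3)

/-- The first `m` terms. -/
noncomputable def cut {α : Type} [Nonempty α] (c : ℕ → α) (m : ℕ) : ℕ → α :=
  fun k => if k < m then c k else Classical.arbitrary α

theorem cut_lt {α : Type} [Nonempty α] {c : ℕ → α} {m k : ℕ} (h : k < m) : cut c m k = c k :=
  if_pos h

theorem cut_congr {α : Type} [Nonempty α] {c c' : ℕ → α} {m : ℕ} (h : ∀ k < m, c k = c' k) :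
    cut c m = cut c' m := by
  funext k
  by_cases hk : k < m
  · rw [cut_lt hk, cut_lt hk, h k hk]
  · simp [cut, hk]

theorem cut_cut {α : Type} [Nonempty α] {c : ℕ → α} {m a : ℕ} (h : m ≤ a) :
    cut (cut c a) m = cut c m :=
  cut_congr fun _ hk => cut_lt (lt_of_lt_of_le hk h)

theorem exists_branch {α : Type} [Nonempty α] (nx : ℕ → (ℕ → α) → α) :
    ∃ b : ℕ → α, ∀ n, b n = nx n (cut b n) := by
  classical
  let g : ℕ → ℕ → α := fun n => Nat.rec (fun _ => Classical.arbitrary α)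
    (fun n c => Function.update c n (nx n (cut c n))) n
  have hg : ∀ n, g (n + 1) = Function.update (g n) n (nx n (cut (g n) n)) := fun _ => rfl
  have h1 : ∀ n k, k < n → g n k = g (k + 1) k := by
    intro n
    induction n with
    | zero => intro k hk; omega
    | succ n ih =>
      intro k hk
      by_cases hkn : k = n
      · rw [hkn]
      · rw [hg, Function.update_of_ne hkn, ih k (by omega)]
  refine ⟨fun k => g (k + 1) k, fun n => ?_⟩
  show g (n + 1) n = _
  rw [hg, Function.update_self]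
  exact congrArg (nx n) (cut_congr fun k hk => h1 n k hk)

/-- Every neighbourhood of a level contains all sequences that grow fast enough. -/
theorem bar (n : ℕ) (j : (ℕ → I) → ℕ) : ∃ ρ : ℕ → (ℕ → I) → I, ∀ x : ℕ → I,
    (∀ k, ρ k (cut x k) < x k) → ∃ z ∈ M n, ∀ k < j z, z k = x k := by
  classical
  let Good : ℕ → (ℕ → I) → Prop := fun a s => ∃ ρ : ℕ → (ℕ → I) → I, ∀ x : ℕ → I,
    (∀ k < a, x k = s k) → (∀ k, a ≤ k → ρ k (cut x k) < x k) →
      ∃ z ∈ M n, ∀ k < j z, z k = x k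
  have step : ∀ a s η, ∃ v, ¬Good a s → η < v ∧ ¬Good (a + 1) (Function.update s a v) := by
    intro a s η
    by_contra hc
    push Not at hc
    have hb := (hc η).1
    have h : ∀ v, ∃ ρ : ℕ → (ℕ → I) → I, η < v → ∀ x : ℕ → I,
        (∀ k < a + 1, x k = Function.update s a v k) →
        (∀ k, a + 1 ≤ k → ρ k (cut x k) < x k) → ∃ z ∈ M n, ∀ k < j z, z k = x k := by
      intro v
      by_cases hv : η < v
      · obtain ⟨ρ, hρ⟩ := (hc v).2 hv
        exact ⟨ρ, fun _ => hρ⟩
      · exact ⟨fun _ _ => η, fun h => absurd h hv⟩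
    choose ρ hρ using h
    refine hb ⟨fun k u => if k = a then η else ρ (u a) k u, fun x h1 h2 => ?_⟩
    refine hρ (x a) (by simpa using h2 a le_rfl) x (fun k hk => ?_) fun k hk => ?_
    · by_cases hka : k = a
      · rw [hka, Function.update_self]
      · rw [Function.update_of_ne hka, h1 k (by omega)]
    · have := h2 k (by omega)
      beta_reduce at this
      rwa [if_neg (by omega), cut_lt (show a < k by omega)] at this
  choose nx hnx using step
  have hb : ∀ η : I, ∃ d, ∀ p : ℕ × (ℕ → Iic η), nx p.1 (fun k => p.2 k) η < d := by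
    intro η
    refine exists_bound ?_ _
    have h1 : #(ℕ → Iic η) ≤ continuum := by
      rw [mk_arrow, lift_id, lift_id, mk_nat]
      exact (power_le_power_right (card_Iic η)).trans continuum_power_aleph0.le
    rw [mk_prod, lift_id, lift_id, mk_nat]
    exact (mul_le_mul' aleph0_le_continuum h1).trans continuum_mul_self.le
  choose g hg using hb
  obtain ⟨δ, hδ, h1, d, h2, h3⟩ := exists_stat.choose_spec.2 n g
  by_contra hcon
  have h0 : ¬Good 0 fun _ => d 0 := fun ⟨ρ, hρ⟩ =>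
    hcon ⟨ρ, fun x hx => hρ x (fun k hk => by omega) fun k _ => hx k⟩
  let st : ℕ → (ℕ → I) × I := fun k => Nat.rec (fun _ => d 0, d 0)
    (fun k p => (Function.update p.1 k (nx k p.1 p.2), max (nx k p.1 p.2) (d (k + 1)))) k
  have hst : ∀ k, st (k + 1) = (Function.update (st k).1 k (nx k (st k).1 (st k).2),
      max (nx k (st k).1 (st k).2) (d (k + 1))) := fun _ => rfl
  have hv : ∀ k, (∀ i, (st k).1 i ≤ (st k).2) → (st k).2 < δ → nx k (st k).1 (st k).2 < δ :=
    fun k a b => (hg (st k).2 (k, fun i => ⟨(st k).1 i, a i⟩)).trans (h1 _ b)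
  have inv : ∀ k, (∀ i, (st k).1 i ≤ (st k).2) ∧ (st k).2 < δ ∧ d k ≤ (st k).2 ∧
      ¬Good k (st k).1 := by
    intro k
    induction k with
    | zero => exact ⟨fun _ => le_rfl, h2 0, le_rfl, h0⟩
    | succ k ih =>
      obtain ⟨i1, i2, -, i4⟩ := ih
      obtain ⟨j1, j2⟩ := hnx k (st k).1 (st k).2 i4
      rw [hst]
      refine ⟨fun i => ?_, max_lt (hv k i1 i2) (h2 _), le_max_right _ _, j2⟩
      refine le_trans ?_ (le_max_left _ _)
      by_cases hik : i = k
      · simp [hik]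
      · simpa [hik] using (i1 i).trans j1.le
  let z : ℕ → I := fun k => nx k (st k).1 (st k).2
  have hz : ∀ m k, k < m → (st m).1 k = z k := by
    intro m
    induction m with
    | zero => intro k hk; omega
    | succ m ih =>
      intro k hk
      rw [hst]
      by_cases hkm : k = m
      · simp [hkm, z]
      · simpa [hkm] using ih k (by omega)
  have hzM : z ∈ M n := by
    refine ⟨δ, hδ, ?_, fun u hu => h3.2 ?_⟩
    · rintro _ ⟨k, rfl⟩
      exact (hv k (inv k).1 (inv k).2.1).le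
    · rintro _ ⟨k, rfl⟩
      exact ((inv k).2.2.1.trans (hnx k _ _ (inv k).2.2.2).1.le).trans (hu ⟨k, rfl⟩)
  exact (inv (j z)).2.2.2 ⟨fun _ _ => d 0, fun x hx _ =>
    ⟨z, hzM, fun k hk => by rw [hx k hk, hz _ k hk]⟩⟩

/-- A family of size at most `𝔠` closed under `𝔠` many countable operations. -/
theorem exists_closed {α D : Type} (hD : #D ≤ continuum) (a : α) (g : D → (ℕ → α) → α) :
    ∃ (ι : Type) (ev : ι → α), #ι ≤ continuum ∧ Nonempty ι ∧
      ∀ d (h : ℕ → ι), ∃ i, ev i = g d fun k => ev (h k) := by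
  let β : Option D → Type := fun o => {_k : ℕ // o.isSome}
  let φ : (Σ o : Option D, β o → α) → α := fun p => match p with
    | ⟨none, _⟩ => a
    | ⟨some d, f⟩ => g d fun k => f ⟨k, rfl⟩
  refine ⟨WType β, WType.elim α φ, WType.cardinalMk_le_of_le ?_,
    ⟨WType.mk none fun k => absurd k.2 (by simp)⟩,
    fun d h => ⟨WType.mk (some d) fun k => h k.1, rfl⟩⟩
  have h1 : ∀ o, continuum ^ #(β o) ≤ continuum := fun o =>
    (power_le_power_left continuum_ne_zero
      ((mk_subtype_le _).trans mk_nat.le)).trans continuum_power_aleph0.le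
  refine (sum_le_sum _ _ h1).trans ?_
  rw [sum_const', mk_option]
  calc _ ≤ (continuum + continuum) * continuum :=
        mul_le_mul' (add_le_add hD (one_le_aleph0.trans aleph0_le_continuum)) le_rfl
    _ = continuum := by simp

end Pool.Agent.Lib.MP_a57f84_gt.R
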